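import Mathlib

/-!
Product kernels on finite products.
-/

open Finset

namespace Pool.Agent.Helper92.FastUpdate

variable {E X Y : Type*} [Fintype E] [DecidableEq E] [Fintype Y]

/-- product weight -/
def pw (w : E → X → Y → ℝ) (s : E → X) (B : E → Y) : ℝ := ∏ e, w e (s e) (B e)

/-- expectation under the product weight -/
def ex (w : E → X → Y → ℝ) (s : E → X) (G : (E → Y) → ℝ) : ℝ := ∑ B, pw w s B * G B

/-- the weights are probabilities -/
structure IsKer (w : E → X → Y → ℝ) : Prop where
  nonneg : ∀ e x y, 0 ≤ w e x y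
  sum_one : ∀ e x, ∑ y, w e x y = 1

variable {w : E → X → Y → ℝ}

omit [DecidableEq E] [Fintype Y] in
lemma pw_nonneg (hw : ∀ e x y, 0 ≤ w e x y) (s : E → X) (B : E → Y) : 0 ≤ pw w s B :=
  Finset.prod_nonneg fun e _ => hw e _ _

lemma ex_mono (hw : IsKer w) (s : E → X) {G H : (E → Y) → ℝ} (h : ∀ B, G B ≤ H B) :
    ex w s G ≤ ex w s H :=
  Finset.sum_le_sum fun B _ => mul_le_mul_of_nonneg_left (h B) (pw_nonneg hw.nonneg s B)

lemma ex_congr (s : E → X) {G H : (E → Y) → ℝ} (h : ∀ B, G B = H B) :
    ex w s G = ex w s H := by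
  rw [show G = H from funext h]

lemma ex_add (s : E → X) (G H : (E → Y) → ℝ) :
    ex w s (fun B => G B + H B) = ex w s G + ex w s H := by
  unfold ex
  rw [← Finset.sum_add_distrib]
  exact Finset.sum_congr rfl fun B _ => by ring

lemma ex_sub (s : E → X) (G H : (E → Y) → ℝ) :
    ex w s (fun B => G B - H B) = ex w s G - ex w s H := by
  unfold ex
  rw [← Finset.sum_sub_distrib]
  exact Finset.sum_congr rfl fun B _ => by ring

lemma ex_mul (s : E → X) (c : ℝ) (G : (E → Y) → ℝ) :
    ex w s (fun B => c * G B) = c * ex w s G := by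
  unfold ex
  rw [Finset.mul_sum]
  exact Finset.sum_congr rfl fun B _ => by ring

lemma ex_sum {ι : Type*} (t : Finset ι) (s : E → X) (G : ι → (E → Y) → ℝ) :
    ex w s (fun B => ∑ i ∈ t, G i B) = ∑ i ∈ t, ex w s (G i) := by
  unfold ex
  rw [Finset.sum_comm]
  exact Finset.sum_congr rfl fun B _ => by rw [Finset.mul_sum]

lemma ex_const (hw : IsKer w) (s : E → X) (c : ℝ) : ex w s (fun _ => c) = c := by
  unfold ex pw
  rw [← Finset.sum_mul]
  have h := Finset.prod_univ_sum (fun _ : E => (Finset.univ : Finset Y))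
    (fun e y => w e (s e) y)
  rw [Fintype.piFinset_univ] at h
  rw [← h]
  simp [hw.sum_one]

/-- Changing one coordinate of the parameter = resampling one coordinate. -/
lemma ex_update' (hw : ∀ e x, ∑ y, w e x y = 1) (s : E → X) (e : E) (x : X)
    (G : (E → Y) → ℝ) :
    ex w (Function.update s e x) G =
      ex w s (fun B => ∑ b, w e x b * G (Function.update B e b)) := by
  classical
  unfold ex pw
  have key : ∀ (s' : E → X) (H : (E → Y) → ℝ),
      ∑ B : E → Y, (∏ f, w f (s' f) (B f)) * H B =
      ∑ b : Y, ∑ B' : {j // j ≠ e} → Y, (w e (s' e) b * ∏ f : {j // j ≠ e}, w f (s' f) (B' f)) *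
        H ((Equiv.funSplitAt e Y).symm (b, B')) := by
    intro s' H
    rw [← Fintype.sum_prod_type', ← Equiv.sum_comp (Equiv.funSplitAt e Y).symm]
    refine Finset.sum_congr rfl fun z _ => ?_
    obtain ⟨b, B'⟩ := z
    congr 1
    rw [Fintype.prod_eq_mul_prod_subtype_ne _ e]
    congr 1
    · simp [Equiv.funSplitAt, Equiv.piSplitAt]
    · refine Finset.prod_congr rfl fun f _ => ?_
      have : (f : E) ≠ e := f.2
      simp [Equiv.funSplitAt, Equiv.piSplitAt, this]
  rw [key, key]
  have hupd : ∀ (b b' : Y) (B' : {j // j ≠ e} → Y),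
      Function.update ((Equiv.funSplitAt e Y).symm (b, B')) e b' =
        (Equiv.funSplitAt e Y).symm (b', B') := by
    intro b b' B'
    funext f
    by_cases hf : f = e
    · subst hf; simp [Equiv.funSplitAt, Equiv.piSplitAt]
    · simp [Equiv.funSplitAt, Equiv.piSplitAt, hf]
  simp only [hupd, Function.update_self]
  have h1 : ∀ B' : {j // j ≠ e} → Y, ∏ f : {j // j ≠ e}, w f (Function.update s e x f) (B' f) =
      ∏ f : {j // j ≠ e}, w f (s f) (B' f) := by
    intro B'
    refine Finset.prod_congr rfl fun f _ => ?_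
    rw [Function.update_of_ne f.2]
  simp only [h1]
  rw [Finset.sum_comm]
  conv_rhs => rw [Finset.sum_comm]
  refine Finset.sum_congr rfl fun B' _ => ?_
  set A := ∏ f : {j // j ≠ e}, w f (s f) (B' f) with hA
  set Z := ∑ b, w e x b * G ((Equiv.funSplitAt e Y).symm (b, B')) with hZ
  have h2 : ∑ b, w e (s e) b * A * Z = A * Z := by
    have : ∑ b, w e (s e) b * A * Z = (∑ b, w e (s e) b) * (A * Z) := by
      rw [Finset.sum_mul]; exact Finset.sum_congr rfl fun b _ => by ring
    rw [this, hw, one_mul]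
  rw [h2, hZ, Finset.mul_sum]
  exact Finset.sum_congr rfl fun b _ => by ring

lemma ex_update (hw : IsKer w) (s : E → X) (e : E) (x : X) (G : (E → Y) → ℝ) :
    ex w (Function.update s e x) G =
      ex w s (fun B => ∑ b, w e x b * G (Function.update B e b)) :=
  ex_update' hw.sum_one s e x G

/-- Resampling one coordinate does not change the expectation. -/
lemma ex_resample (hw : IsKer w) (s : E → X) (e : E) (G : (E → Y) → ℝ) :
    ex w s G = ex w s (fun B => ∑ b, w e (s e) b * G (Function.update B e b)) := by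
  conv_lhs => rw [← Function.update_eq_self e s]
  rw [ex_update hw]

end Pool.Agent.Helper92.FastUpdate
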