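import Pool.Agent.Helper92.FastUpdate.Chains
import Pool.Agent.Helper92.FastUpdate.Kernel
import Mathlib

/-!
Lazy revealment: exact intertwining of the dynamic contact process with the lazily revealed one.
-/

open Finset

namespace Pool.Agent.Helper92.FastUpdate

variable {V E : Type*} [DecidableEq V] [DecidableEq E] [Fintype V] [Fintype E]

/-- weights of the environment given the revealed information -/
def w1 (θ : E → ℝ) (e : E) (x : Option Bool) (b : Bool) : ℝ :=
  match x with
  | none => if b = true then θ e else 1 - θ e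
  | some b' => if b = b' then 1 else 0

omit [DecidableEq E] [Fintype E] in
lemma w1_ker {θ : E → ℝ} (h0 : ∀ e, 0 ≤ θ e) (h1 : ∀ e, θ e ≤ 1) : IsKer (w1 θ) := by
  refine ⟨fun e x b => ?_, fun e x => ?_⟩
  · rcases x with _ | b'
    · cases b <;> simp [w1, h0, h1]
    · simp only [w1]; split_ifs <;> norm_num
  · rcases x with _ | b'
    · simp [w1]
    · cases b' <;> simp [w1]

section

variable {θ : E → ℝ} (h0 : ∀ e, 0 ≤ θ e) (h1 : ∀ e, θ e ≤ 1)

include h0 h1

lemma ex_w1_some (s : E → Option Bool) (e : E) (b' : Bool) (G : (E → Bool) → ℝ) :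
    ex (w1 θ) (Function.update s e (some b')) G =
      ex (w1 θ) s fun B => G (Function.update B e b') := by
  rw [ex_update (w1_ker h0 h1)]
  refine ex_congr _ fun B => ?_
  cases b' <;> simp [w1]

lemma ex_w1_none (s : E → Option Bool) (e : E) (G : (E → Bool) → ℝ) :
    ex (w1 θ) (Function.update s e none) G =
      ex (w1 θ) s fun B => θ e * G (Function.update B e true) +
        (1 - θ e) * G (Function.update B e false) := by
  rw [ex_update (w1_ker h0 h1)]
  refine ex_congr _ fun B => ?_
  simp [w1]

lemma ex_w1_of_some {s : E → Option Bool} {e : E} {b' : Bool} (hs : s e = some b')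
    (G : (E → Bool) → ℝ) :
    ex (w1 θ) s G = ex (w1 θ) s fun B => G (Function.update B e b') := by
  rw [← ex_w1_some h0 h1, ← hs, Function.update_eq_self]

lemma ex_w1_of_none {s : E → Option Bool} {e : E} (hs : s e = none)
    (G : (E → Bool) → ℝ) :
    ex (w1 θ) s G = ex (w1 θ) s fun B => θ e * G (Function.update B e true) +
        (1 - θ e) * G (Function.update B e false) := by
  rw [← ex_w1_none h0 h1, ← hs, Function.update_eq_self]

end

variable (d : Data V E)

/-- the revealment kernel -/
def revK (F : Finset V × (E → Bool) → ℝ) (s : Finset V × (E → Option Bool)) : ℝ :=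
  ex (w1 d.θ) s.2 fun B => F (s.1, B)

variable {d}

lemma lazy_avg (hd : d.Ok) (i : E ⊕ E ⊕ V) (F : Finset V × (E → Bool) → ℝ)
    (s : Finset V × (E → Option Bool)) :
    d.lazy.avg i (revK d F) s = revK d (d.dyn.avg i F) s := by
  obtain ⟨C, s⟩ := s
  rcases i with e | e | y
  · rcases hs : s e with _ | b
    · by_cases hD : Disjoint (d.ends e) C
      · have e1 : d.lazy.avg (.inl e) (revK d F) (C, s) = revK d F (C, s) := by
          simp only [Sys.avg, Data.lazy, hs, if_pos hD]; ring
        rw [e1]
        unfold revK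
        refine ex_congr _ fun B => ?_
        simp only [Sys.avg, Data.dyn, Sum.elim_inl, infect, if_pos hD]
        simp
      · have e1 : d.lazy.avg (.inl e) (revK d F) (C, s) =
            d.θ e * revK d F (C ∪ d.ends e, Function.update s e (some true)) +
            (1 - d.θ e) * revK d F (C, Function.update s e (some false)) := by
          simp only [Sys.avg, Data.lazy, hs, if_neg hD, Sum.elim_inl, cond_true, cond_false]
        rw [e1]
        unfold revK
        simp only
        rw [ex_w1_some hd.θ0 hd.θ1, ex_w1_some hd.θ0 hd.θ1]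
        conv_rhs => rw [ex_w1_of_none hd.θ0 hd.θ1 hs]
        rw [← ex_mul, ← ex_mul, ← ex_add]
        refine ex_congr _ fun B => ?_
        simp [Sys.avg, Data.dyn, infect, hD]
    · cases b
      · have e1 : d.lazy.avg (.inl e) (revK d F) (C, s) = revK d F (C, s) := by
          simp only [Sys.avg, Data.lazy, hs]; ring
        rw [e1]
        unfold revK
        simp only
        rw [ex_w1_of_some hd.θ0 hd.θ1 hs, ex_w1_of_some hd.θ0 hd.θ1 hs
          (fun B => d.dyn.avg (Sum.inl e) F (C, B))]
        refine ex_congr _ fun B => ?_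
        simp [Sys.avg, Data.dyn]
      · have e1 : d.lazy.avg (.inl e) (revK d F) (C, s) =
            revK d F (infect (d.ends e) C, s) := by
          simp only [Sys.avg, Data.lazy, hs]; ring
        rw [e1]
        unfold revK
        simp only
        rw [ex_w1_of_some hd.θ0 hd.θ1 hs, ex_w1_of_some hd.θ0 hd.θ1 hs
          (fun B => d.dyn.avg (Sum.inl e) F (C, B))]
        refine ex_congr _ fun B => ?_
        simp [Sys.avg, Data.dyn]
  · have e1 : d.lazy.avg (.inr (.inl e)) (revK d F) (C, s) =
        revK d F (C, Function.update s e none) := by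
      simp only [Sys.avg, Data.lazy]; ring
    rw [e1]
    unfold revK
    simp only
    rw [ex_w1_none hd.θ0 hd.θ1]
    refine ex_congr _ fun B => ?_
    simp [Sys.avg, Data.dyn]
  · have e1 : d.lazy.avg (.inr (.inr y)) (revK d F) (C, s) = revK d F (C.erase y, s) := by
      simp only [Sys.avg, Data.lazy]; ring
    rw [e1]
    unfold revK
    refine ex_congr _ fun B => ?_
    simp [Sys.avg, Data.dyn]

lemma lazy_gen (hd : d.Ok) (F : Finset V × (E → Bool) → ℝ)
    (s : Finset V × (E → Option Bool)) :
    d.lazy.gen (revK d F) s = revK d (d.dyn.gen F) s := by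
  unfold Sys.gen
  have : revK d (fun s => ∑ i, d.dyn.r i * (d.dyn.avg i F s - F s)) s =
      ∑ i, d.dyn.r i * (revK d (d.dyn.avg i F) s - revK d F s) := by
    unfold revK
    rw [ex_sum]
    refine Finset.sum_congr rfl fun i _ => ?_
    rw [ex_mul, ex_sub]
  rw [this]
  refine Finset.sum_congr rfl fun i _ => ?_
  rw [lazy_avg hd]
  rfl

lemma lazy_step (hd : d.Ok) (h : ℝ) (F : Finset V × (E → Bool) → ℝ) :
    d.lazy.step h (revK d F) = revK d (d.dyn.step h F) := by
  funext s
  unfold Sys.step
  rw [lazy_gen hd]
  unfold revK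
  rw [ex_add, ex_mul]

lemma lazy_steps (hd : d.Ok) (h : ℝ) (k : ℕ) (F : Finset V × (E → Bool) → ℝ) :
    d.lazy.steps h k (revK d F) = revK d (d.dyn.steps h k F) := by
  induction k with
  | zero => rfl
  | succ k ih => rw [Sys.steps_succ, ih, lazy_step hd, Sys.steps_succ]

end Pool.Agent.Helper92.FastUpdate
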