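import Mathlib
import Pool.Agent.Helper92.FastUpdate.StepOne

/-!
The dynamic contact process dominates a static one; product Bernoulli environments.
-/

open Finset

namespace Pool.Agent.Helper92.FastUpdate

variable {V E : Type*} [DecidableEq V] [DecidableEq E] [Fintype V] [Fintype E]

/-- Bernoulli weight with parameter `x` -/
def wX (_ : E) (x : ℝ) (b : Bool) : ℝ := if b = true then x else 1 - x

omit [DecidableEq E] [Fintype E] in
lemma wX_sum (e : E) (x : ℝ) : ∑ b, wX e x b = 1 := by simp [wX]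

/-- expectation under the product of Bernoulli laws -/
def bern (π : E → ℝ) (G : (E → Bool) → ℝ) : ℝ := ex wX π G

lemma bern_eq_w1 (θ : E → ℝ) (G : (E → Bool) → ℝ) :
    ex (w1 θ) (fun _ => none) G = bern θ G := by
  unfold bern ex pw w1 wX; rfl

omit [DecidableEq E] in
lemma pw_wX_nonneg {π : E → ℝ} (h0 : ∀ e, 0 ≤ π e) (h1 : ∀ e, π e ≤ 1) (B : E → Bool) :
    0 ≤ pw wX π B := by
  refine Finset.prod_nonneg fun e _ => ?_
  unfold wX; split_ifs
  · exact h0 e
  · linarith [h1 e]

lemma bern_mono {π : E → ℝ} (h0 : ∀ e, 0 ≤ π e) (h1 : ∀ e, π e ≤ 1) {G H : (E → Bool) → ℝ}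
    (h : ∀ B, G B ≤ H B) : bern π G ≤ bern π H :=
  Finset.sum_le_sum fun B _ => mul_le_mul_of_nonneg_left (h B) (pw_wX_nonneg h0 h1 B)

lemma bern_const (π : E → ℝ) (c : ℝ) : bern π (fun _ => c) = c := by
  unfold bern ex pw
  rw [← Finset.sum_mul]
  have h := Finset.prod_univ_sum (fun _ : E => (Finset.univ : Finset Bool))
    (fun e y => wX e (π e) y)
  rw [Fintype.piFinset_univ] at h
  rw [← h]
  simp [wX]

lemma bern_resample (π : E → ℝ) (e : E) (G : (E → Bool) → ℝ) :
    bern π G = bern π fun B => π e * G (Function.update B e true) +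
      (1 - π e) * G (Function.update B e false) := by
  unfold bern
  conv_lhs => rw [← Function.update_eq_self e π]
  rw [ex_update' wX_sum]
  refine ex_congr _ fun B => ?_
  simp [wX]

lemma bern_update (π : E → ℝ) (e : E) (x : ℝ) (G : (E → Bool) → ℝ) :
    bern (Function.update π e x) G = bern π fun B => x * G (Function.update B e true) +
      (1 - x) * G (Function.update B e false) := by
  unfold bern
  rw [ex_update' wX_sum]
  refine ex_congr _ fun B => ?_
  simp [wX]

lemma bern_le_update {π : E → ℝ} (h0 : ∀ e, 0 ≤ π e) (h1 : ∀ e, π e ≤ 1) (e : E) {x : ℝ}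
    (hx : π e ≤ x) {G : (E → Bool) → ℝ} (hG : Monotone G) :
    bern π G ≤ bern (Function.update π e x) G := by
  rw [bern_update, bern_resample π e G]
  refine bern_mono h0 h1 fun B => ?_
  have : G (Function.update B e false) ≤ G (Function.update B e true) := by
    refine hG fun f => ?_
    by_cases hf : f = e
    · subst hf; simp
    · simp [Function.update_of_ne hf]
  nlinarith

lemma bern_le_bern {π θ : E → ℝ} (h0 : ∀ e, 0 ≤ π e) (h1 : ∀ e, θ e ≤ 1) (h : ∀ e, π e ≤ θ e)
    {G : (E → Bool) → ℝ} (hG : Monotone G) : bern π G ≤ bern θ G := by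
  have key : ∀ T : Finset E, bern π G ≤ bern (T.piecewise θ π) G := by
    intro T
    induction T using Finset.induction_on with
    | empty => simp
    | insert e T he ih =>
      rw [Finset.piecewise_insert]
      refine ih.trans (bern_le_update ?_ ?_ e ?_ hG)
      · intro f; by_cases hf : f ∈ T
        · rw [Finset.piecewise_eq_of_mem _ _ _ hf]; exact (h0 f).trans (h f)
        · rw [Finset.piecewise_eq_of_notMem _ _ _ hf]; exact h0 f
      · intro f; by_cases hf : f ∈ T
        · rw [Finset.piecewise_eq_of_mem _ _ _ hf]; exact h1 f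
        · rw [Finset.piecewise_eq_of_notMem _ _ _ hf]; exact (h f).trans (h1 f)
      · rw [Finset.piecewise_eq_of_notMem _ _ _ he]; exact h e
  have := key Finset.univ
  rwa [Finset.piecewise_univ] at this

variable (d : Data V E)

/-- averaging over a Bernoulli environment -/
def bK (π : E → ℝ) (F : Finset V × (E → Bool) → ℝ) (C : Finset V) : ℝ := bern π fun B => F (C, B)

variable {d}

/-- the edge part -/
lemma upper_edge {π α : E → ℝ} (hπ0 : ∀ e, 0 ≤ π e) (hπ1 : ∀ e, π e ≤ 1)
    (hα0 : ∀ e, 0 ≤ α e) (h1 : ∀ e, α e ≤ d.lam * π e)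
    (h2 : ∀ e, α e * (1 - π e) ≤ d.g e * (d.θ e - π e))
    {F : Finset V × (E → Bool) → ℝ} (hF : Monotone F) (e : E) (C : Finset V) :
    α e * (bK π F (infect (d.ends e) C) - bK π F C) ≤
    bern π fun B => d.lam * (d.dyn.avg (.inl e) F (C, B) - F (C, B)) +
      d.g e * (d.dyn.avg (.inr (.inl e)) F (C, B) - F (C, B)) := by
  rw [bern_resample π e (fun B => d.lam * (d.dyn.avg (.inl e) F (C, B) - F (C, B)) +
      d.g e * (d.dyn.avg (.inr (.inl e)) F (C, B) - F (C, B)))]
  unfold bK
  rw [bern_resample π e (fun B => F (infect (d.ends e) C, B)),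
    bern_resample π e (fun B => F (C, B))]
  unfold bern
  rw [← ex_sub, ← ex_mul]
  refine bern_mono hπ0 hπ1 fun B => ?_
  have a1 : d.dyn.avg (.inl e) F (C, Function.update B e true) =
      F (infect (d.ends e) C, Function.update B e true) := by
    simp [Sys.avg, Data.dyn]
  have a2 : d.dyn.avg (.inl e) F (C, Function.update B e false) =
      F (C, Function.update B e false) := by
    simp [Sys.avg, Data.dyn]
  have a3 : ∀ b, d.dyn.avg (.inr (.inl e)) F (C, Function.update B e b) =
      d.θ e * F (C, Function.update B e true) + (1 - d.θ e) * F (C, Function.update B e false) := by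
    intro b
    simp [Sys.avg, Data.dyn]
  rw [a1, a2, a3, a3]
  set F1 := F (C, Function.update B e true)
  set F0 := F (C, Function.update B e false)
  set F1' := F (infect (d.ends e) C, Function.update B e true)
  set F0' := F (infect (d.ends e) C, Function.update B e false)
  have hBB : Function.update B e false ≤ Function.update B e true := by
    intro f
    by_cases hf : f = e
    · subst hf; simp
    · simp [Function.update_of_ne hf]
  have m1 : F0' ≤ F1' := hF ⟨le_rfl, hBB⟩
  have m2 : F0 ≤ F1 := hF ⟨le_rfl, hBB⟩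
  have m3 : F1 ≤ F1' := hF ⟨subset_infect _ _, le_rfl⟩
  have k1 : α e * (F1' - F1) ≤ d.lam * π e * (F1' - F1) :=
    mul_le_mul_of_nonneg_right (h1 e) (by linarith)
  have k2 : α e * (1 - π e) * (F1 - F0) ≤ d.g e * (d.θ e - π e) * (F1 - F0) :=
    mul_le_mul_of_nonneg_right (h2 e) (by linarith)
  have k3 : 0 ≤ α e * (1 - π e) * (F1' - F0') :=
    mul_nonneg (mul_nonneg (hα0 e) (by linarith [hπ1 e])) (by linarith)
  nlinarith

/-- the generator comparison -/
lemma upper_gen {π α : E → ℝ} (hπ0 : ∀ e, 0 ≤ π e) (hπ1 : ∀ e, π e ≤ 1)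
    (hα0 : ∀ e, 0 ≤ α e) (h1 : ∀ e, α e ≤ d.lam * π e)
    (h2 : ∀ e, α e * (1 - π e) ≤ d.g e * (d.θ e - π e))
    {F : Finset V × (E → Bool) → ℝ} (hF : Monotone F) (C : Finset V) :
    (stat d.ends α 1).gen (bK π F) C ≤ bK π (d.dyn.gen F) C := by
  have hL : (stat d.ends α 1).gen (bK π F) C =
      (∑ e, α e * (bK π F (infect (d.ends e) C) - bK π F C)) +
      ∑ y, (bK π F (C.erase y) - bK π F C) := by
    unfold Sys.gen
    rw [Fintype.sum_sum_type]
    congr 1
    · refine Finset.sum_congr rfl fun e _ => ?_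
      simp [Sys.avg, stat]
    · refine Finset.sum_congr rfl fun y _ => ?_
      simp [Sys.avg, stat]
  have hR : bK π (d.dyn.gen F) C =
      (∑ e, bern π fun B => d.lam * (d.dyn.avg (.inl e) F (C, B) - F (C, B)) +
        d.g e * (d.dyn.avg (.inr (.inl e)) F (C, B) - F (C, B))) +
      ∑ y, bern π fun B => (F (C.erase y, B) - F (C, B)) := by
    unfold bK bern
    rw [← ex_sum, ← ex_sum, ← ex_add]
    refine ex_congr _ fun B => ?_
    unfold Sys.gen
    rw [Fintype.sum_sum_type, Fintype.sum_sum_type, Finset.sum_add_distrib, add_assoc]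
    congr 2
    refine Finset.sum_congr rfl fun y _ => ?_
    simp [Data.dyn, Sys.avg]
  rw [hL, hR]
  refine add_le_add (Finset.sum_le_sum fun e _ => upper_edge hπ0 hπ1 hα0 h1 h2 hF e C) ?_
  refine le_of_eq (Finset.sum_congr rfl fun y _ => ?_)
  unfold bK bern
  rw [ex_sub]

lemma upper_steps (hd : d.Ok) {π α : E → ℝ} (hπ0 : ∀ e, 0 ≤ π e) (hπ1 : ∀ e, π e ≤ 1)
    (hα0 : ∀ e, 0 ≤ α e) (h1 : ∀ e, α e ≤ d.lam * π e)
    (h2 : ∀ e, α e * (1 - π e) ≤ d.g e * (d.θ e - π e)) {h : ℝ} (h0 : 0 ≤ h)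
    (hs : h * (stat d.ends α 1).tot ≤ 1) (hdy : h * d.dyn.tot ≤ 1) (k : ℕ)
    {F : Finset V × (E → Bool) → ℝ} (hF : Monotone F) (C : Finset V) :
    (stat d.ends α 1).steps h k (bK π F) C ≤ bK π (d.dyn.steps h k F) C := by
  have hst : (stat d.ends α 1).Valid := stat_valid hα0 zero_le_one
  have hdm : d.dyn.AvgMono := (dyn_attractive d).avgMono hd.dyn_valid
  induction k generalizing C with
  | zero => exact le_rfl
  | succ k ih =>
    rw [Sys.steps_succ, Sys.steps_succ]
    refine (Sys.step_mono hst h0 hs ih C).trans ?_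
    have h3 : bK π (d.dyn.step h (d.dyn.steps h k F)) C =
        bK π (d.dyn.steps h k F) C + h * bK π (d.dyn.gen (d.dyn.steps h k F)) C := by
      unfold bK bern
      rw [← ex_mul, ← ex_add]
      rfl
    rw [h3]
    unfold Sys.step
    have := mul_le_mul_of_nonneg_left
      (upper_gen hπ0 hπ1 hα0 h1 h2 (hdm.steps hd.dyn_valid h0 hdy k hF) C) h0
    linarith

/-- **Finite-volume upper comparison** for the uniformized chains. -/
theorem stat_steps_le (hd : d.Ok) {π α : E → ℝ} (hπ0 : ∀ e, 0 ≤ π e) (hπθ : ∀ e, π e ≤ d.θ e)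
    (hα0 : ∀ e, 0 ≤ α e) (h1 : ∀ e, α e ≤ d.lam * π e)
    (h2 : ∀ e, α e * (1 - π e) ≤ d.g e * (d.θ e - π e)) {h : ℝ} (h0 : 0 ≤ h)
    (hs : h * (stat d.ends α 1).tot ≤ 1) (hdy : h * d.dyn.tot ≤ 1) (k : ℕ)
    {φ : Finset V → ℝ} (hφ : Monotone φ) (C : Finset V) :
    (stat d.ends α 1).steps h k φ C ≤
      bern d.θ fun B => d.dyn.steps h k (fun s => φ s.1) (C, B) := by
  have hF : Monotone fun s : Finset V × (E → Bool) => φ s.1 := fun s s' hs => hφ hs.1
  have hπ1 : ∀ e, π e ≤ 1 := fun e => (hπθ e).trans (hd.θ1 e)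
  have e1 : bK π (fun s : Finset V × (E → Bool) => φ s.1) = φ := by
    funext C
    unfold bK
    simp only
    rw [bern_const]
  have h3 := upper_steps hd hπ0 hπ1 hα0 h1 h2 h0 hs hdy k hF C
  rw [e1] at h3
  refine h3.trans ?_
  refine bern_le_bern hπ0 hd.θ1 hπθ fun B B' hB => ?_
  exact ((dyn_attractive d).avgMono hd.dyn_valid).steps hd.dyn_valid h0 hdy k hF ⟨le_rfl, hB⟩

end Pool.Agent.Helper92.FastUpdate
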