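import Pool.Agent.Helper92.FastUpdate.Lower
import Pool.Agent.Helper92.FastUpdate.Upper
import Pool.Agent.Helper97.Dyn.Chain
import Mathlib

/-!
The quantitative finite-volume comparison in the notation of `Helper97.Dyn`.
-/

open Finset
open Pool.Agent.Helper97

set_option linter.unusedSectionVars false

namespace Pool.Agent.Helper92.FastUpdate

variable {W : Type*} [Fintype W] [DecidableEq W]

open Classical in
/-- the finite data attached to the rates -/
noncomputable def dat (lam : ℝ) (π ν : Sym2 W → ℝ) : Data W (Sym2 W) where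
  ends e := univ.filter fun x => x ∈ e
  lam := lam
  g := ν
  θ := π

lemma dat_card (lam : ℝ) (π ν : Sym2 W → ℝ) (e : Sym2 W) :
    ((dat lam π ν).ends e).card ≤ 2 := by
  classical
  induction e using Sym2.ind with
  | _ u v =>
    have : (dat lam π ν).ends s(u, v) ⊆ {u, v} := by
      intro x hx
      simp only [dat, mem_filter, mem_univ, true_and, Sym2.mem_iff] at hx
      simp [hx]
    exact (Finset.card_le_card this).trans Finset.card_le_two

lemma dat_ok {lam : ℝ} (hlam : 0 ≤ lam) {π ν : Sym2 W → ℝ} (hπ0 : ∀ e, 0 ≤ π e)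
    (hπ1 : ∀ e, π e ≤ 1) (hν : ∀ e, 0 < ν e) : (dat lam π ν).Ok :=
  ⟨dat_card lam π ν, hlam, hν, hπ0, hπ1⟩

lemma infect_eq (lam : ℝ) (π ν : Sym2 W → ℝ) (e : Sym2 W) (C : Finset W) :
    infect ((dat lam π ν).ends e) C = Dyn.infect e C := by
  classical
  ext y
  rw [Dyn.mem_infect]
  unfold infect Dyn.touch
  have hd : Disjoint ((dat lam π ν).ends e) C ↔ ¬ ∃ x ∈ C, x ∈ e := by
    rw [Finset.disjoint_left]
    simp only [dat, mem_filter, mem_univ, true_and]
    push Not
    exact ⟨fun h x hx he => h he hx, fun h x he hx => h x hx he⟩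
  by_cases h : ∃ x ∈ C, x ∈ e
  · rw [if_neg (by rw [hd]; exact fun hh => hh h)]
    simp only [mem_union, dat, mem_filter, mem_univ, true_and]
    tauto
  · rw [if_pos (hd.2 h)]
    exact ⟨fun hy => Or.inl hy, fun hy => hy.elim id fun hh => absurd hh.2 h⟩

lemma dyn_gen_eq (lam : ℝ) (π ν : Sym2 W → ℝ) (F : Finset W × (Sym2 W → Bool) → ℝ)
    (s : Finset W × (Sym2 W → Bool)) :
    (dat lam π ν).dyn.gen F s =
      Dyn.gen (Dyn.drate lam (fun e => ν e * π e) (fun e => ν e * (1 - π e))) Dyn.dmap F s := by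
  classical
  rw [Dyn.gen_d]
  unfold Sys.gen
  rw [Fintype.sum_sum_type, Fintype.sum_sum_type, ← add_assoc, ← sum_add_distrib, add_comm]
  congr 1
  · refine sum_congr rfl fun y _ => ?_
    simp [Data.dyn, Sys.avg]
  · refine sum_congr rfl fun e _ => ?_
    have h1 : (dat lam π ν).dyn.avg (.inl e) F s =
        F (if s.2 e = true then Dyn.infect e s.1 else s.1, s.2) := by
      simp only [Sys.avg, Data.dyn]
      rw [infect_eq]
      split_ifs <;> simp
    have h2 : (dat lam π ν).dyn.avg (.inr (.inl e)) F s =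
        π e * F (s.1, Dyn.upd s.2 e true) + (1 - π e) * F (s.1, Dyn.upd s.2 e false) := by
      simp [Sys.avg, Data.dyn, dat, Dyn.upd]
    rw [h1, h2]
    simp only [Data.dyn, Sum.elim_inl, Sum.elim_inr, dat]
    ring

lemma dyn_steps_eq (lam : ℝ) (π ν : Sym2 W → ℝ) (h : ℝ) (k : ℕ)
    (F : Finset W × (Sym2 W → Bool) → ℝ) :
    (dat lam π ν).dyn.steps h k F =
      (Dyn.stp (Dyn.drate lam (fun e => ν e * π e) (fun e => ν e * (1 - π e))) Dyn.dmap h)^[k] F := by
  induction k with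
  | zero => rfl
  | succ k ih =>
    rw [Sys.steps_succ, Function.iterate_succ_apply', ← ih]
    funext s
    unfold Sys.step Dyn.stp
    rw [dyn_gen_eq]

lemma stat_gen_eq (lam : ℝ) (π ν : Sym2 W → ℝ) (a : Sym2 W → ℝ) (ρ : ℝ) (φ : Finset W → ℝ)
    (C : Finset W) : (stat (dat lam π ν).ends a ρ).gen φ C =
      Dyn.gen (Dyn.srate ρ a) Dyn.smap φ C := by
  classical
  rw [Dyn.gen_s]
  unfold Sys.gen
  rw [Fintype.sum_sum_type, add_comm]
  congr 1
  · refine sum_congr rfl fun y _ => ?_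
    simp [stat, Sys.avg]
  · refine sum_congr rfl fun e _ => ?_
    simp [stat, Sys.avg, infect_eq]

lemma stat_steps_eq (lam : ℝ) (π ν : Sym2 W → ℝ) (a : Sym2 W → ℝ) (ρ : ℝ) (h : ℝ) (k : ℕ)
    (φ : Finset W → ℝ) : (stat (dat lam π ν).ends a ρ).steps h k φ =
      (Dyn.stp (Dyn.srate ρ a) Dyn.smap h)^[k] φ := by
  induction k with
  | zero => rfl
  | succ k ih =>
    rw [Sys.steps_succ, Function.iterate_succ_apply', ← ih]
    funext s
    unfold Sys.step Dyn.stp
    rw [stat_gen_eq]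

lemma bern_eq (π : Sym2 W → ℝ) (G : (Sym2 W → Bool) → ℝ) : bern π G = Dyn.Ex π G := rfl

/-- **Quantitative finite-volume comparison**: the dynamic contact process is dominated by the
static one with recovery rate `ρ ≤ 1 - ∑_{e ∋ y} lam / ν e`. -/
theorem dyn_le_static {lam : ℝ} (hlam : 0 ≤ lam) {π ν : Sym2 W → ℝ} (hπ0 : ∀ e, 0 ≤ π e)
    (hπ1 : ∀ e, π e ≤ 1) (hν : ∀ e, 2 ≤ ν e) {ρ : ℝ} (hρ0 : 0 ≤ ρ)
    (hρ : ∀ y : W, ∑ e : Sym2 W, (if y ∈ e then lam / ν e else 0) ≤ 1 - ρ) :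
    ∃ M : ℝ, 0 ≤ M ∧ ∀ h : ℝ, 0 ≤ h → M * h ≤ 1 → ∀ (n : ℕ) (φ : Finset W → ℝ), Monotone φ →
      ∀ C : Finset W,
      Dyn.Ex π (fun β => (Dyn.stp (Dyn.drate lam (fun e => ν e * π e) (fun e => ν e * (1 - π e)))
        Dyn.dmap h)^[n] (fun s => φ s.1) (C, β)) ≤
      (Dyn.stp (Dyn.srate ρ (fun e => lam * π e)) Dyn.smap h)^[n] φ C := by
  classical
  set d := dat lam π ν with hd
  have hok : d.Ok := dat_ok hlam hπ0 hπ1 fun e => by linarith [hν e]
  have hst : (d.st ρ).Valid := stat_valid (fun e => mul_nonneg hok.lam (hok.θ0 e)) hρ0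
  set A := ∑ e, (d.g e + d.lam) with hA
  have hA1 : ∀ e, d.g e + d.lam ≤ A := fun e =>
    Finset.single_le_sum (f := fun e => d.g e + d.lam)
      (fun e _ => add_nonneg (hok.g e).le hok.lam) (mem_univ e)
  have hA0 : 0 ≤ A := Finset.sum_nonneg fun e _ => add_nonneg (hok.g e).le hok.lam
  have hb := Sys.tot_nonneg hok.blk_valid
  have hl := Sys.tot_nonneg hok.lazy_valid
  have hs := Sys.tot_nonneg hst
  refine ⟨d.blk.tot + d.lazy.tot + (d.st ρ).tot + A, by linarith, ?_⟩
  intro h h0 hM n φ hφ C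
  have key : ∀ x : ℝ, x ≤ d.blk.tot + d.lazy.tot + (d.st ρ).tot + A → h * x ≤ 1 := by
    intro x hx
    calc h * x ≤ h * (d.blk.tot + d.lazy.tot + (d.st ρ).tot + A) :=
          mul_le_mul_of_nonneg_left hx h0
      _ ≤ 1 := by rw [mul_comm]; exact hM
  have hmain := dyn_steps_le hok (d := d) (fun e => hν e) h0
    (fun e => key _ (by linarith [hA1 e])) (key _ (by linarith)) (key _ (by linarith)) hρ0
    (key _ (by linarith)) (ρ := ρ) ?_ C n hφ
  · have e1 : (fun s : Finset W × (Sym2 W → Bool) => φ s.1) = fun s => φ s.1 := rfl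
    rw [bern_eq_w1] at hmain
    simp only [hd, dyn_steps_eq] at hmain
    unfold Data.st at hmain
    rw [stat_steps_eq] at hmain
    exact hmain
  · intro y
    have : ∀ e, (y ∈ d.ends e ↔ y ∈ e) := fun e => by simp [hd, dat]
    simp only [this]
    exact hρ y

end Pool.Agent.Helper92.FastUpdate
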