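import Pool.Agent.Helper92.FastUpdate.Sys
import Mathlib

/-!
The four finite chains: the dynamic contact process, the lazily revealed one, the one with blocked
recoveries, and the static contact process.
-/

open Finset

namespace Pool.Agent.Helper92.FastUpdate

/-- data of a finite contact process on a dynamical graph -/
structure Data (V E : Type*) where
  /-- the endpoints of an edge -/
  ends : E → Finset V
  /-- infection rate -/
  lam : ℝ
  /-- refresh rates -/
  g : E → ℝ
  /-- probability that an edge is open -/
  θ : E → ℝ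

variable {V E : Type*} [DecidableEq V] [DecidableEq E]

/-- transmission along an open edge -/
def infect (A C : Finset V) : Finset V := if Disjoint A C then C else C ∪ A

lemma infect_mono (A : Finset V) : Monotone (infect A) := by
  intro C C' h
  have h' : C ⊆ C' := h
  unfold infect
  by_cases h1 : Disjoint A C'
  · have h2 : Disjoint A C := h1.mono_right h
    rw [if_pos h1, if_pos h2]; exact h
  · rw [if_neg h1]
    split_ifs
    · exact h'.trans Finset.subset_union_left
    · exact Finset.union_subset_union_left h'

lemma subset_infect (A C : Finset V) : C ⊆ infect A C := by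
  unfold infect; split_ifs
  · exact subset_rfl
  · exact Finset.subset_union_left

namespace Data

variable (d : Data V E)

/-- the contact process on the dynamical graph -/
def dyn : Sys (Finset V × (E → Bool)) (E ⊕ E ⊕ V) where
  r := Sum.elim (fun _ => d.lam) (Sum.elim d.g fun _ => 1)
  p := Sum.elim (fun _ => 0) (Sum.elim d.θ fun _ => 0)
  f := fun i b s => match i with
    | .inl e => if s.2 e = true then (infect (d.ends e) s.1, s.2) else s
    | .inr (.inl e) => (s.1, Function.update s.2 e b)
    | .inr (.inr y) => (s.1.erase y, s.2)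

/-- the lazily revealed process -/
def lazy : Sys (Finset V × (E → Option Bool)) (E ⊕ E ⊕ V) where
  r := Sum.elim (fun _ => d.lam) (Sum.elim d.g fun _ => 1)
  p := Sum.elim d.θ (Sum.elim (fun _ => 0) fun _ => 0)
  f := fun i b s => match i with
    | .inl e => match s.2 e with
      | none => if Disjoint (d.ends e) s.1 then s else
          bif b then (s.1 ∪ d.ends e, Function.update s.2 e (some true))
          else (s.1, Function.update s.2 e (some false))
      | some true => (infect (d.ends e) s.1, s.2)
      | some false => s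
    | .inr (.inl e) => (s.1, Function.update s.2 e none)
    | .inr (.inr y) => (s.1.erase y, s.2)

/-- probability that an open edge transmits before it is refreshed -/
noncomputable def β (e : E) : ℝ := d.lam / (d.lam + d.g e)

/-- the process with blocked recoveries -/
noncomputable def blk : Sys (Finset V × (E → Bool)) (E ⊕ E ⊕ V) where
  r := Sum.elim (fun e => d.lam * d.θ e) (Sum.elim d.g fun _ => 1)
  p := Sum.elim d.β (Sum.elim (fun _ => 0) fun _ => 0)
  f := fun i b s => match i with
    | .inl e => if Disjoint (d.ends e) s.1 then s else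
        (s.1 ∪ d.ends e, bif b then Function.update s.2 e true else s.2)
    | .inr (.inl e) => (s.1, Function.update s.2 e false)
    | .inr (.inr y) => open Classical in
        if ∃ e, y ∈ d.ends e ∧ s.2 e = true then s else (s.1.erase y, s.2)

end Data

/-- the static contact process with infection rates `α` and recovery rate `ρ` -/
def stat (ends : E → Finset V) (α : E → ℝ) (ρ : ℝ) : Sys (Finset V) (E ⊕ V) where
  r := Sum.elim α fun _ => ρ
  p := fun _ => 0
  f := fun i _ C => match i with
    | .inl e => infect (ends e) C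
    | .inr y => C.erase y

/-- standing assumptions -/
structure Data.Ok (d : Data V E) : Prop where
  card : ∀ e, (d.ends e).card ≤ 2
  lam : 0 ≤ d.lam
  g : ∀ e, 0 < d.g e
  θ0 : ∀ e, 0 ≤ d.θ e
  θ1 : ∀ e, d.θ e ≤ 1

variable {d : Data V E}

omit [DecidableEq V] [DecidableEq E] in
lemma Data.Ok.β0 (h : d.Ok) (e : E) : 0 ≤ d.β e :=
  div_nonneg h.lam (add_nonneg h.lam (h.g e).le)

omit [DecidableEq V] [DecidableEq E] in
lemma Data.Ok.β1 (h : d.Ok) (e : E) : d.β e ≤ 1 := by
  unfold Data.β
  rw [div_le_one (by linarith [h.lam, h.g e])]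
  linarith [h.g e]

omit [DecidableEq V] [DecidableEq E] in
lemma Data.Ok.β_eq (h : d.Ok) (e : E) : d.lam * (1 - d.β e) = d.g e * d.β e := by
  unfold Data.β
  have : d.lam + d.g e ≠ 0 := by linarith [h.lam, h.g e]
  field_simp
  ring

lemma Data.Ok.dyn_valid (h : d.Ok) : d.dyn.Valid := by
  refine ⟨fun i => ?_, fun i => ?_, fun i => ?_⟩ <;> rcases i with e | e | y <;>
    simp [Data.dyn, h.lam, (h.g _).le, h.θ0, h.θ1]

lemma Data.Ok.lazy_valid (h : d.Ok) : d.lazy.Valid := by
  refine ⟨fun i => ?_, fun i => ?_, fun i => ?_⟩ <;> rcases i with e | e | y <;>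
    simp [Data.lazy, h.lam, (h.g _).le, h.θ0, h.θ1]

lemma Data.Ok.blk_valid (h : d.Ok) : d.blk.Valid := by
  refine ⟨fun i => ?_, fun i => ?_, fun i => ?_⟩ <;> rcases i with e | e | y <;>
    simp [Data.blk, mul_nonneg, h.lam, (h.g _).le, h.θ0, h.β0, h.β1]

omit [DecidableEq E] in
lemma stat_valid {ends : E → Finset V} {α : E → ℝ} {ρ : ℝ} (hα : ∀ e, 0 ≤ α e) (hρ : 0 ≤ ρ) :
    (stat ends α ρ).Valid := by
  refine ⟨fun i => ?_, fun i => ?_, fun i => ?_⟩ <;> rcases i with e | y <;>
    simp [stat, hα, hρ]

omit [DecidableEq E] in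
lemma stat_attractive (ends : E → Finset V) (α : E → ℝ) (ρ : ℝ) :
    (stat ends α ρ).Attractive := by
  intro i b
  rcases i with e | y
  · exact infect_mono _
  · exact fun C C' h => Finset.erase_subset_erase _ h

lemma dyn_attractive (d : Data V E) : d.dyn.Attractive := by
  intro i b
  rcases i with e | e | y
  · rintro ⟨C, B⟩ ⟨C', B'⟩ ⟨h1, h2⟩
    simp only [Data.dyn]
    have h1' : C ⊆ C' := h1
    have h2' : B ≤ B' := h2
    by_cases hB : B e = true
    · have hB' : B' e = true := by
        have := h2' e; rw [hB] at this; exact top_le_iff.1 this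
      rw [if_pos hB, if_pos hB']
      exact ⟨infect_mono _ h1, h2⟩
    · rw [if_neg hB]
      split_ifs
      · exact ⟨h1'.trans (subset_infect _ _), h2⟩
      · exact ⟨h1, h2⟩
  · rintro ⟨C, B⟩ ⟨C', B'⟩ ⟨h1, h2⟩
    refine ⟨h1, ?_⟩
    simp only [Data.dyn]
    intro f
    by_cases hf : f = e
    · subst hf; simp
    · simp only [Function.update_of_ne hf]; exact h2 f
  · rintro ⟨C, B⟩ ⟨C', B'⟩ ⟨h1, h2⟩
    exact ⟨Finset.erase_subset_erase _ h1, h2⟩

lemma blk_attractive (d : Data V E) : d.blk.Attractive := by
  intro i b
  rcases i with e | e | y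
  · rintro ⟨C, B⟩ ⟨C', B'⟩ ⟨h1, h2⟩
    have h1' : C ⊆ C' := h1
    have h2' : B ≤ B' := h2
    have h3 : ∀ f, B f ≤ (bif b then Function.update B' e true else B') f := by
      intro f
      cases b
      · exact h2' f
      · by_cases hf : f = e
        · subst hf; simp only [cond_true, Function.update_self]; exact Bool.le_true _
        · simp only [cond_true, Function.update_of_ne hf]; exact h2' f
    have h4 : ∀ f, (bif b then Function.update B e true else B) f ≤
        (bif b then Function.update B' e true else B') f := by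
      intro f
      cases b
      · exact h2' f
      · by_cases hf : f = e
        · subst hf; simp
        · simp only [cond_true, Function.update_of_ne hf]; exact h2' f
    simp only [Data.blk]
    by_cases hD : Disjoint (d.ends e) C'
    · rw [if_pos hD, if_pos (hD.mono_right h1)]; exact ⟨h1, h2⟩
    · rw [if_neg hD]
      split_ifs
      · exact ⟨h1'.trans Finset.subset_union_left, h3⟩
      · exact ⟨Finset.union_subset_union_left h1', h4⟩
  · rintro ⟨C, B⟩ ⟨C', B'⟩ ⟨h1, h2⟩
    refine ⟨h1, ?_⟩
    simp only [Data.blk]
    intro f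
    by_cases hf : f = e
    · subst hf; simp
    · simp only [Function.update_of_ne hf]; exact h2 f
  · rintro ⟨C, B⟩ ⟨C', B'⟩ ⟨h1, h2⟩
    have h1' : C ⊆ C' := h1
    have h2' : B ≤ B' := h2
    simp only [Data.blk]
    by_cases hb : ∃ e, y ∈ d.ends e ∧ B' e = true
    · rw [if_pos hb]
      split_ifs
      · exact ⟨h1, h2⟩
      · exact ⟨(Finset.erase_subset _ _).trans h1', h2⟩
    · have hb' : ¬ ∃ e, y ∈ d.ends e ∧ B e = true := by
        rintro ⟨e, he1, he2⟩
        refine hb ⟨e, he1, ?_⟩
        have := h2' e; rw [he2] at this; exact top_le_iff.1 this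
      rw [if_neg hb, if_neg hb']
      exact ⟨Finset.erase_subset_erase _ h1, h2⟩

end Pool.Agent.Helper92.FastUpdate
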