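import Pool.Agent.Helper92.FastUpdate.StepOne
import Mathlib

/-!
The lookahead kernel: the lazily revealed process is dominated by the process with blocked
recoveries.
-/

open Finset

namespace Pool.Agent.Helper92.FastUpdate

variable {V E : Type*} [DecidableEq V] [DecidableEq E] [Fintype V] [Fintype E]

/-- weights of the lookahead -/
def w2 (β : E → ℝ) (e : E) (x : Option Bool) (b : Bool) : ℝ :=
  match x with
  | some true => if b = true then β e else 1 - β e
  | some false => if b = true then 0 else 1
  | none => if b = true then 0 else 1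

omit [DecidableEq E] [Fintype E] in
lemma w2_ker {β : E → ℝ} (h0 : ∀ e, 0 ≤ β e) (h1 : ∀ e, β e ≤ 1) : IsKer (w2 β) := by
  refine ⟨fun e x b => ?_, fun e x => ?_⟩
  · rcases x with _ | b'
    · cases b <;> simp [w2]
    · cases b' <;> cases b <;> simp [w2, h0, h1]
  · rcases x with _ | b'
    · simp [w2]
    · cases b' <;> simp [w2]

/-- vertices of the marked edges -/
def VJ (ends : E → Finset V) (J : E → Bool) : Finset V :=
  Finset.univ.biUnion fun e => if J e = true then ends e else ∅

omit [DecidableEq E] [Fintype V] in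
lemma mem_VJ {ends : E → Finset V} {J : E → Bool} {y : V} :
    y ∈ VJ ends J ↔ ∃ e, y ∈ ends e ∧ J e = true := by
  unfold VJ
  simp only [Finset.mem_biUnion, Finset.mem_univ, true_and]
  refine exists_congr fun e => ?_
  by_cases h : J e = true <;> simp [h]

omit [Fintype V] in
lemma VJ_true (ends : E → Finset V) (J : E → Bool) (e : E) :
    VJ ends (Function.update J e true) = VJ ends (Function.update J e false) ∪ ends e := by
  ext y
  simp only [Finset.mem_union, mem_VJ]
  constructor
  · rintro ⟨f, h1, h2⟩
    by_cases hf : f = e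
    · subst hf; exact Or.inr h1
    · left; refine ⟨f, h1, ?_⟩
      rw [Function.update_of_ne hf] at h2 ⊢; exact h2
  · rintro (⟨f, h1, h2⟩ | h)
    · by_cases hf : f = e
      · subst hf; exact ⟨f, h1, by simp⟩
      · refine ⟨f, h1, ?_⟩
        rw [Function.update_of_ne hf] at h2 ⊢; exact h2
    · exact ⟨e, h, by simp⟩

variable (d : Data V E)

/-- the lookahead kernel -/
noncomputable def lookK (F : Finset V × (E → Bool) → ℝ) (s : Finset V × (E → Option Bool)) : ℝ :=
  ex (w2 d.β) s.2 fun J => F (s.1 ∪ VJ d.ends J, J)

variable {d}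

section

variable (hd : d.Ok)

include hd

omit [DecidableEq V] [Fintype V] in
lemma ex_w2_upd_true (s : E → Option Bool) (e : E) (G : (E → Bool) → ℝ) :
    ex (w2 d.β) (Function.update s e (some true)) G =
      ex (w2 d.β) s fun J => d.β e * G (Function.update J e true) +
        (1 - d.β e) * G (Function.update J e false) := by
  rw [ex_update (w2_ker hd.β0 hd.β1)]
  refine ex_congr _ fun B => ?_
  simp [w2]

omit [DecidableEq V] [Fintype V] in
lemma ex_w2_upd_false (s : E → Option Bool) (e : E) (G : (E → Bool) → ℝ) :
    ex (w2 d.β) (Function.update s e (some false)) G =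
      ex (w2 d.β) s fun J => G (Function.update J e false) := by
  rw [ex_update (w2_ker hd.β0 hd.β1)]
  refine ex_congr _ fun B => ?_
  simp [w2]

omit [DecidableEq V] [Fintype V] in
lemma ex_w2_upd_none (s : E → Option Bool) (e : E) (G : (E → Bool) → ℝ) :
    ex (w2 d.β) (Function.update s e none) G =
      ex (w2 d.β) s fun J => G (Function.update J e false) := by
  rw [ex_update (w2_ker hd.β0 hd.β1)]
  refine ex_congr _ fun B => ?_
  simp [w2]

omit [DecidableEq V] [Fintype V] in
lemma ex_w2_of_true {s : E → Option Bool} {e : E} (hs : s e = some true)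
    (G : (E → Bool) → ℝ) :
    ex (w2 d.β) s G = ex (w2 d.β) s fun J => d.β e * G (Function.update J e true) +
        (1 - d.β e) * G (Function.update J e false) := by
  rw [← ex_w2_upd_true hd, ← hs, Function.update_eq_self]

omit [DecidableEq V] [Fintype V] in
lemma ex_w2_of_false {s : E → Option Bool} {e : E} (hs : s e ≠ some true)
    (G : (E → Bool) → ℝ) :
    ex (w2 d.β) s G = ex (w2 d.β) s fun J => G (Function.update J e false) := by
  rcases h : s e with _ | b
  · rw [← ex_w2_upd_none hd, ← h, Function.update_eq_self]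
  · cases b
    · rw [← ex_w2_upd_false hd, ← h, Function.update_eq_self]
    · exact absurd h hs

/-- the edge part of the generator comparison -/
lemma look_edge {F : Finset V × (E → Bool) → ℝ} (hF : Monotone F) (e : E) (C : Finset V)
    (s : E → Option Bool) :
    d.lam * (d.lazy.avg (.inl e) (lookK d F) (C, s) - lookK d F (C, s)) +
      d.g e * (d.lazy.avg (.inr (.inl e)) (lookK d F) (C, s) - lookK d F (C, s)) ≤
    ex (w2 d.β) s fun J =>
      d.lam * d.θ e * (d.blk.avg (.inl e) F (C ∪ VJ d.ends J, J) - F (C ∪ VJ d.ends J, J)) +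
      d.g e * (d.blk.avg (.inr (.inl e)) F (C ∪ VJ d.ends J, J) - F (C ∪ VJ d.ends J, J)) := by
  classical
  -- the pointwise quantities
  set A := d.ends e with hA
  set D0 : (E → Bool) → Finset V := fun J => C ∪ VJ d.ends (Function.update J e false) with hD0
  set a0 : (E → Bool) → ℝ := fun J => F (D0 J, Function.update J e false) with ha0
  set a01 : (E → Bool) → ℝ := fun J => F (D0 J ∪ A, Function.update J e false) with ha01
  set a1 : (E → Bool) → ℝ := fun J => F (D0 J ∪ A, Function.update J e true) with ha1
  have hupd : ∀ J : E → Bool, Function.update J e false ≤ Function.update J e true := by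
    intro J f
    by_cases hf : f = e
    · subst hf; simp
    · simp [Function.update_of_ne hf]
  have m1 : ∀ J, a0 J ≤ a01 J := fun J => hF ⟨Finset.subset_union_left, le_rfl⟩
  have m2 : ∀ J, a01 J ≤ a1 J := fun J => hF ⟨subset_rfl, hupd J⟩
  have hC1 : ∀ J, C ∪ VJ d.ends (Function.update J e true) = D0 J ∪ A := by
    intro J; rw [VJ_true, hD0, Finset.union_assoc]
  have hβ0 := hd.β0 e
  have hβ1 := hd.β1 e
  have hβ := hd.β_eq e
  have hl := hd.lam
  have hθ0 := hd.θ0 e
  have hlθ := mul_nonneg hl hθ0
  have hg := (hd.g e).le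
  -- the right-hand side at the two values
  have R0 : ∀ J : E → Bool, J e = false → ∀ D : Finset V,
      d.lam * d.θ e * (d.blk.avg (.inl e) F (D, J) - F (D, J)) +
      d.g e * (d.blk.avg (.inr (.inl e)) F (D, J) - F (D, J)) =
      d.lam * d.θ e * (if Disjoint A D then 0 else
        d.β e * F (D ∪ A, Function.update J e true) + (1 - d.β e) * F (D ∪ A, J) - F (D, J)) := by
    intro J hJ D
    have e2 : d.blk.avg (.inr (.inl e)) F (D, J) = F (D, J) := by
      have : Function.update J e false = J := by rw [← hJ, Function.update_eq_self]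
      simp only [Sys.avg, Data.blk, this]; ring
    rw [e2, sub_self, mul_zero, add_zero]
    congr 1
    by_cases h : Disjoint A D
    · rw [if_pos h]
      simp only [Sys.avg, Data.blk, ← hA, if_pos h]; ring
    · rw [if_neg h]
      simp only [Sys.avg, Data.blk, ← hA, if_neg h, Sum.elim_inl, cond_true, cond_false]
  have R1 : ∀ J : E → Bool, J e = true → ∀ D : Finset V, A ⊆ D →
      d.lam * d.θ e * (d.blk.avg (.inl e) F (D, J) - F (D, J)) +
      d.g e * (d.blk.avg (.inr (.inl e)) F (D, J) - F (D, J)) =
      d.g e * (F (D, Function.update J e false) - F (D, J)) := by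
    intro J hJ D hD
    have e1 : d.blk.avg (.inl e) F (D, J) = F (D, J) := by
      have hJ' : Function.update J e true = J := by rw [← hJ, Function.update_eq_self]
      have hD' : D ∪ A = D := Finset.union_eq_left.2 hD
      simp only [Sys.avg, Data.blk, ← hA, hD', hJ']
      cases d.β e; split_ifs <;> simp <;> ring
    have e2 : d.blk.avg (.inr (.inl e)) F (D, J) = F (D, Function.update J e false) := by
      simp only [Sys.avg, Data.blk]; ring
    rw [e1, e2, sub_self, mul_zero, zero_add]
  have hlook0 : ∀ s' : E → Option Bool, ∀ C', lookK d F (C', s') =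
      ex (w2 d.β) s' fun J => F (C' ∪ VJ d.ends J, J) := fun _ _ => rfl
  have hrefresh : d.lazy.avg (.inr (.inl e)) (lookK d F) (C, s) = ex (w2 d.β) s a0 := by
    have : d.lazy.avg (.inr (.inl e)) (lookK d F) (C, s) =
        lookK d F (C, Function.update s e none) := by
      simp only [Sys.avg, Data.lazy]; ring
    rw [this, hlook0, ex_w2_upd_none hd]
  rcases hs : s e with _ | b
  · -- unrevealed
    have hne : s e ≠ some true := by rw [hs]; simp
    have hself : lookK d F (C, s) = ex (w2 d.β) s a0 := by
      rw [hlook0, ex_w2_of_false hd hne]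
    have harrow : d.lazy.avg (.inl e) (lookK d F) (C, s) =
        ex (w2 d.β) s fun J => if Disjoint A C then a0 J else
          d.θ e * (d.β e * a1 J + (1 - d.β e) * a01 J) + (1 - d.θ e) * a0 J := by
      by_cases hD : Disjoint A C
      · have : d.lazy.avg (.inl e) (lookK d F) (C, s) = lookK d F (C, s) := by
          simp only [Sys.avg, Data.lazy, hs, ← hA, if_pos hD]; ring
        simp only [if_pos hD]
        rw [this, hself]
      · have : d.lazy.avg (.inl e) (lookK d F) (C, s) =
            d.θ e * lookK d F (C ∪ A, Function.update s e (some true)) +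
            (1 - d.θ e) * lookK d F (C, Function.update s e (some false)) := by
          simp only [Sys.avg, Data.lazy, hs, ← hA, if_neg hD, Sum.elim_inl, cond_true, cond_false]
        simp only [if_neg hD]
        rw [this, hlook0, hlook0, ex_w2_upd_true hd, ex_w2_upd_false hd, ← ex_mul, ← ex_mul,
          ← ex_add]
        refine ex_congr _ fun J => ?_
        have u1 : C ∪ A ∪ VJ d.ends (Function.update J e true) = D0 J ∪ A := by
          rw [VJ_true, hD0, ← hA]; ext z; simp only [Finset.mem_union]; tauto
        have u2 : C ∪ A ∪ VJ d.ends (Function.update J e false) = D0 J ∪ A := by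
          rw [hD0]; ext z; simp only [Finset.mem_union]; tauto
        rw [u1, u2]
    rw [harrow, hrefresh, hself, sub_self, mul_zero, add_zero, ← ex_sub, ← ex_mul,
      ex_w2_of_false hd hne (fun J => d.lam * d.θ e *
        (d.blk.avg (.inl e) F (C ∪ VJ d.ends J, J) - F (C ∪ VJ d.ends J, J)) +
      d.g e * (d.blk.avg (.inr (.inl e)) F (C ∪ VJ d.ends J, J) - F (C ∪ VJ d.ends J, J)))]
    refine ex_mono (w2_ker hd.β0 hd.β1) _ fun J => ?_
    rw [R0 (Function.update J e false) (by simp)]
    simp only [Function.update_idem]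
    change _ ≤ d.lam * d.θ e * (if Disjoint A (D0 J) then 0 else
      d.β e * a1 J + (1 - d.β e) * a01 J - a0 J)
    have hm1 := m1 J
    have hm2 := m2 J
    have hpos : 0 ≤ d.β e * a1 J + (1 - d.β e) * a01 J - a0 J := by nlinarith
    by_cases hD0' : Disjoint A (D0 J)
    · have hDC : Disjoint A C := hD0'.mono_right Finset.subset_union_left
      rw [if_pos hD0', if_pos hDC]; simp
    · rw [if_neg hD0']
      by_cases hDC : Disjoint A C
      · rw [if_pos hDC, sub_self, mul_zero]; exact mul_nonneg hlθ hpos
      · rw [if_neg hDC]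
        apply le_of_eq; ring
  · cases b
    · -- revealed closed
      have hne : s e ≠ some true := by rw [hs]; simp
      have hself : lookK d F (C, s) = ex (w2 d.β) s a0 := by
        rw [hlook0, ex_w2_of_false hd hne]
      have harrow : d.lazy.avg (.inl e) (lookK d F) (C, s) = ex (w2 d.β) s a0 := by
        rw [← hself]
        simp only [Sys.avg, Data.lazy, hs]; ring
      rw [harrow, hrefresh, hself, sub_self, mul_zero, mul_zero, add_zero,
        ex_w2_of_false hd hne (fun J => d.lam * d.θ e *
        (d.blk.avg (.inl e) F (C ∪ VJ d.ends J, J) - F (C ∪ VJ d.ends J, J)) +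
        d.g e * (d.blk.avg (.inr (.inl e)) F (C ∪ VJ d.ends J, J) - F (C ∪ VJ d.ends J, J)))]
      rw [← ex_const (w2_ker hd.β0 hd.β1) s 0]
      refine ex_mono (w2_ker hd.β0 hd.β1) _ fun J => ?_
      rw [R0 (Function.update J e false) (by simp)]
      simp only [Function.update_idem]
      change 0 ≤ d.lam * d.θ e * (if Disjoint A (D0 J) then 0 else
        d.β e * a1 J + (1 - d.β e) * a01 J - a0 J)
      have hm1 := m1 J
      have hm2 := m2 J
      have hpos : 0 ≤ d.β e * a1 J + (1 - d.β e) * a01 J - a0 J := by nlinarith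
      split_ifs
      · simp
      · exact mul_nonneg hlθ hpos
    · -- revealed open
      have hself : lookK d F (C, s) =
          ex (w2 d.β) s fun J => d.β e * a1 J + (1 - d.β e) * a0 J := by
        rw [hlook0, ex_w2_of_true hd hs]
        refine ex_congr _ fun J => ?_
        rw [hC1]
      have harrow : d.lazy.avg (.inl e) (lookK d F) (C, s) =
          ex (w2 d.β) s fun J => d.β e * a1 J +
            (1 - d.β e) * (if Disjoint A C then a0 J else a01 J) := by
        have : d.lazy.avg (.inl e) (lookK d F) (C, s) = lookK d F (infect A C, s) := by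
          simp only [Sys.avg, Data.lazy, hs, ← hA]; ring
        rw [this, hlook0, ex_w2_of_true hd hs]
        refine ex_congr _ fun J => ?_
        by_cases hDC : Disjoint A C
        · have u0 : infect A C = C := by unfold infect; rw [if_pos hDC]
          rw [u0, if_pos hDC, hC1]
        · have u0 : infect A C = C ∪ A := by unfold infect; rw [if_neg hDC]
          have u1 : C ∪ A ∪ VJ d.ends (Function.update J e true) = D0 J ∪ A := by
            rw [VJ_true, hD0, ← hA]; ext z; simp only [Finset.mem_union]; tauto
          have u2 : C ∪ A ∪ VJ d.ends (Function.update J e false) = D0 J ∪ A := by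
            rw [hD0]; ext z; simp only [Finset.mem_union]; tauto
          rw [u0, if_neg hDC, u1, u2]
      rw [harrow, hrefresh, hself, ← ex_sub, ← ex_sub, ← ex_mul, ← ex_mul, ← ex_add,
        ex_w2_of_true hd hs (fun J => d.lam * d.θ e *
        (d.blk.avg (.inl e) F (C ∪ VJ d.ends J, J) - F (C ∪ VJ d.ends J, J)) +
        d.g e * (d.blk.avg (.inr (.inl e)) F (C ∪ VJ d.ends J, J) - F (C ∪ VJ d.ends J, J)))]
      refine ex_mono (w2_ker hd.β0 hd.β1) _ fun J => ?_
      rw [R0 (Function.update J e false) (by simp),
        R1 (Function.update J e true) (by simp) _ (by rw [hC1]; exact Finset.subset_union_right)]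
      simp only [Function.update_idem, hC1]
      change _ ≤ d.β e * (d.g e * (a01 J - a1 J)) +
        (1 - d.β e) * (d.lam * d.θ e * (if Disjoint A (D0 J) then 0 else
        d.β e * a1 J + (1 - d.β e) * a01 J - a0 J))
      have hm1 := m1 J
      have hm2 := m2 J
      have hpos : 0 ≤ d.β e * a1 J + (1 - d.β e) * a01 J - a0 J := by nlinarith
      have hpos2 : 0 ≤ (1 - d.β e) * (d.lam * d.θ e * (if Disjoint A (D0 J) then 0 else
        d.β e * a1 J + (1 - d.β e) * a01 J - a0 J)) := by
        refine mul_nonneg (by linarith) (mul_nonneg hlθ ?_)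
        split_ifs
        · exact le_rfl
        · exact hpos
      have hkey : d.lam * (1 - d.β e) * (a01 J - a0 J) = d.g e * d.β e * (a01 J - a0 J) := by
        rw [hβ]
      have hk0 : 0 ≤ d.g e * d.β e * (a01 J - a0 J) :=
        mul_nonneg (mul_nonneg hg hβ0) (by linarith)
      split_ifs at * <;> nlinarith

/-- the vertex part of the generator comparison -/
lemma look_vertex (F : Finset V × (E → Bool) → ℝ) (y : V) (C : Finset V)
    (s : E → Option Bool) :
    d.lazy.avg (.inr (.inr y)) (lookK d F) (C, s) - lookK d F (C, s) =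
    ex (w2 d.β) s fun J =>
      (d.blk.avg (.inr (.inr y)) F (C ∪ VJ d.ends J, J) - F (C ∪ VJ d.ends J, J)) := by
  classical
  have h1 : d.lazy.avg (.inr (.inr y)) (lookK d F) (C, s) = lookK d F (C.erase y, s) := by
    simp only [Sys.avg, Data.lazy]; ring
  rw [h1]
  unfold lookK
  rw [← ex_sub]
  refine ex_congr _ fun J => ?_
  simp only
  congr 1
  by_cases hb : ∃ e, y ∈ d.ends e ∧ J e = true
  · have hy : y ∈ VJ d.ends J := mem_VJ.2 hb
    have : C.erase y ∪ VJ d.ends J = C ∪ VJ d.ends J := by
      ext z
      simp only [Finset.mem_union, Finset.mem_erase]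
      by_cases hz : z = y
      · subst hz; simp [hy]
      · simp [hz]
    rw [this]
    simp only [Sys.avg, Data.blk, if_pos hb]; ring
  · have hy : y ∉ VJ d.ends J := fun h => hb (mem_VJ.1 h)
    have : C.erase y ∪ VJ d.ends J = (C ∪ VJ d.ends J).erase y := by
      ext z
      simp only [Finset.mem_union, Finset.mem_erase]
      by_cases hz : z = y
      · subst hz; simp [hy]
      · simp [hz]
    rw [this]
    simp only [Sys.avg, Data.blk, if_neg hb]; ring

/-- generator comparison -/
lemma look_gen {F : Finset V × (E → Bool) → ℝ} (hF : Monotone F)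
    (s : Finset V × (E → Option Bool)) :
    d.lazy.gen (lookK d F) s ≤ lookK d (d.blk.gen F) s := by
  obtain ⟨C, s⟩ := s
  have hL : d.lazy.gen (lookK d F) (C, s) =
      (∑ e, (d.lam * (d.lazy.avg (.inl e) (lookK d F) (C, s) - lookK d F (C, s)) +
        d.g e * (d.lazy.avg (.inr (.inl e)) (lookK d F) (C, s) - lookK d F (C, s)))) +
      ∑ y, (d.lazy.avg (.inr (.inr y)) (lookK d F) (C, s) - lookK d F (C, s)) := by
    unfold Sys.gen
    rw [Fintype.sum_sum_type, Fintype.sum_sum_type, Finset.sum_add_distrib, add_assoc]
    congr 2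
    refine Finset.sum_congr rfl fun y _ => ?_
    simp [Data.lazy]
  have hR : lookK d (d.blk.gen F) (C, s) =
      (∑ e, ex (w2 d.β) s fun J =>
        d.lam * d.θ e * (d.blk.avg (.inl e) F (C ∪ VJ d.ends J, J) - F (C ∪ VJ d.ends J, J)) +
        d.g e * (d.blk.avg (.inr (.inl e)) F (C ∪ VJ d.ends J, J) - F (C ∪ VJ d.ends J, J))) +
      ∑ y, ex (w2 d.β) s fun J =>
        (d.blk.avg (.inr (.inr y)) F (C ∪ VJ d.ends J, J) - F (C ∪ VJ d.ends J, J)) := by
    rw [← ex_sum, ← ex_sum, ← ex_add]
    refine ex_congr _ fun J => ?_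
    unfold Sys.gen
    rw [Fintype.sum_sum_type, Fintype.sum_sum_type, Finset.sum_add_distrib, add_assoc]
    congr 2
    refine Finset.sum_congr rfl fun y _ => ?_
    simp [Data.blk]
  rw [hL, hR]
  refine add_le_add (Finset.sum_le_sum fun e _ => look_edge hd hF e C s) ?_
  exact le_of_eq (Finset.sum_congr rfl fun y _ => look_vertex hd F y C s)

lemma look_step {h : ℝ} (h0 : 0 ≤ h) {F : Finset V × (E → Bool) → ℝ} (hF : Monotone F)
    (s : Finset V × (E → Option Bool)) :
    d.lazy.step h (lookK d F) s ≤ lookK d (d.blk.step h F) s := by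
  have h1 : lookK d (d.blk.step h F) s = lookK d F s + h * lookK d (d.blk.gen F) s := by
    unfold lookK
    rw [← ex_mul, ← ex_add]
    rfl
  rw [h1]
  unfold Sys.step
  have := mul_le_mul_of_nonneg_left (look_gen hd hF s) h0
  linarith

lemma look_steps {h : ℝ} (h0 : 0 ≤ h) (h1 : h * d.lazy.tot ≤ 1) (h2 : h * d.blk.tot ≤ 1) (k : ℕ)
    {F : Finset V × (E → Bool) → ℝ} (hF : Monotone F) (s : Finset V × (E → Option Bool)) :
    d.lazy.steps h k (lookK d F) s ≤ lookK d (d.blk.steps h k F) s := by
  induction k generalizing s with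
  | zero => exact le_rfl
  | succ k ih =>
    rw [Sys.steps_succ, Sys.steps_succ]
    refine (Sys.step_mono hd.lazy_valid h0 h1 ih s).trans ?_
    exact look_step hd h0
      (((blk_attractive d).avgMono hd.blk_valid).steps hd.blk_valid h0 h2 k hF) s

/-- the kernel at the initial state -/
lemma lookK_none (F : Finset V × (E → Bool) → ℝ) (C : Finset V) :
    lookK d F (C, fun _ => none) = F (C, fun _ => false) := by
  classical
  unfold lookK ex
  rw [Finset.sum_eq_single (fun _ : E => false)]
  · have h1 : pw (w2 d.β) (fun _ : E => (none : Option Bool)) (fun _ => false) = 1 := by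
      unfold pw w2; simp
    have h2 : VJ d.ends (fun _ : E => false) = ∅ := by
      ext y; simp [mem_VJ]
    simp only
    rw [h1, h2, Finset.union_empty, one_mul]
  · intro J _ hJ
    have : ∃ e, J e = true := by
      by_contra hcon
      push Not at hcon
      exact hJ (funext fun e => by simpa using hcon e)
    obtain ⟨e, he⟩ := this
    have h1 : pw (w2 d.β) (fun _ : E => (none : Option Bool)) J = 0 := by
      unfold pw
      refine Finset.prod_eq_zero (Finset.mem_univ e) ?_
      simp [w2, he]
    rw [h1, zero_mul]
  · intro h; exact absurd (Finset.mem_univ _) h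

end

end Pool.Agent.Helper92.FastUpdate
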