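import Pool.Agent.Helper92.FastUpdate.StepThree
import Pool.Agent.Helper92.FastUpdate.StepTwo
import Mathlib

/-!
Comparison of the dynamic contact process with a static one of smaller recovery rate, for the
uniformized chains.
-/

open Finset

namespace Pool.Agent.Helper92.FastUpdate

variable {V E : Type*} [DecidableEq V] [DecidableEq E] [Fintype V] [Fintype E]

variable {d : Data V E}

/-- the static process used for comparison -/
def Data.st (d : Data V E) (ρ : ℝ) : Sys (Finset V) (E ⊕ V) :=
  stat d.ends (fun e => d.lam * d.θ e) ρ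

/-- one step of the blocked process against one step of the static one -/
lemma blk_step_le (hd : d.Ok) {h ρ : ℝ} (h0 : 0 ≤ h)
    (hρ : ∀ y, ∑ e, (if y ∈ d.ends e then d.lam / d.g e else 0) ≤ 1 - ρ)
    {φ : Finset V → ℝ} (hφ : Monotone φ) (s : Finset V × (E → Bool)) :
    d.blk.step h (fun s => φ s.1) s ≤ (d.st ρ).step h φ s.1 +
      h * ∑ y, ∑ e, (if y ∈ d.ends e then hatG d e (fun s => φ s.1 - φ (s.1.erase y)) s else 0) := by
  classical
  obtain ⟨D, a⟩ := s
  have hblk : d.blk.gen (fun s => φ s.1) (D, a) =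
      (∑ e, d.lam * d.θ e * (φ (infect (d.ends e) D) - φ D)) +
      ∑ y, (if ∃ e, y ∈ d.ends e ∧ a e = true then 0 else φ (D.erase y) - φ D) := by
    unfold Sys.gen
    rw [Fintype.sum_sum_type, Fintype.sum_sum_type]
    have h2 : ∑ e, d.blk.r (.inr (.inl e)) * (d.blk.avg (.inr (.inl e)) (fun s => φ s.1) (D, a) -
        φ D) = 0 := by
      refine Finset.sum_eq_zero fun e _ => ?_
      have : d.blk.avg (.inr (.inl e)) (fun s => φ s.1) (D, a) = φ D := by
        simp only [Sys.avg, Data.blk]; ring
      rw [this]; ring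
    have h1 : ∑ e, d.blk.r (.inl e) * (d.blk.avg (.inl e) (fun s => φ s.1) (D, a) - φ D) =
        ∑ e, d.lam * d.θ e * (φ (infect (d.ends e) D) - φ D) := by
      refine Finset.sum_congr rfl fun e _ => ?_
      have : d.blk.avg (.inl e) (fun s => φ s.1) (D, a) = φ (infect (d.ends e) D) := by
        by_cases hdis : Disjoint (d.ends e) D
        · simp only [Sys.avg, Data.blk, infect, if_pos hdis]; ring
        · simp only [Sys.avg, Data.blk, infect, if_neg hdis]; ring
      rw [this]; simp [Data.blk]
    have h3 : ∑ y, d.blk.r (.inr (.inr y)) * (d.blk.avg (.inr (.inr y)) (fun s => φ s.1) (D, a) -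
        φ D) = ∑ y, (if ∃ e, y ∈ d.ends e ∧ a e = true then 0 else φ (D.erase y) - φ D) := by
      refine Finset.sum_congr rfl fun y _ => ?_
      have : d.blk.r (.inr (.inr y)) = 1 := by simp [Data.blk]
      rw [this, one_mul]
      by_cases hb : ∃ e, y ∈ d.ends e ∧ a e = true
      · simp only [Sys.avg, Data.blk, if_pos hb]; ring
      · simp only [Sys.avg, Data.blk, if_neg hb]; ring
    simp only at h1 h2 h3 ⊢
    rw [h1, h2, h3, zero_add]
  have hst : (d.st ρ).gen φ D =
      (∑ e, d.lam * d.θ e * (φ (infect (d.ends e) D) - φ D)) +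
      ∑ y, ρ * (φ (D.erase y) - φ D) := by
    unfold Sys.gen
    rw [Fintype.sum_sum_type]
    congr 1
    · refine Finset.sum_congr rfl fun e _ => ?_
      simp [Sys.avg, Data.st, stat]
    · refine Finset.sum_congr rfl fun y _ => ?_
      simp [Sys.avg, Data.st, stat]
  have hpt : ∀ y, (if ∃ e, y ∈ d.ends e ∧ a e = true then 0 else φ (D.erase y) - φ D) ≤
      ρ * (φ (D.erase y) - φ D) +
      ∑ e, (if y ∈ d.ends e then hatG d e (fun s => φ s.1 - φ (s.1.erase y)) (D, a) else 0) := by
    intro y
    set w := φ D - φ (D.erase y) with hw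
    have hw0 : 0 ≤ w := by
      have : φ (D.erase y) ≤ φ D := hφ (Finset.erase_subset _ _)
      linarith
    -- lower bound of each signed term
    have hhat : ∀ e, hatG d e (fun s => φ s.1 - φ (s.1.erase y)) (D, a) =
        (if a e = true then w else -(d.lam / d.g e) * w) := fun e => rfl
    simp only [hhat]
    have hlow : -(1 - ρ) * w ≤
        ∑ e, (if y ∈ d.ends e then (if a e = true then w else -(d.lam / d.g e) * w) else 0) := by
      have h1 : -(1 - ρ) * w ≤ -(∑ e, (if y ∈ d.ends e then d.lam / d.g e else 0)) * w := by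
        have := mul_le_mul_of_nonneg_right (hρ y) hw0
        linarith
      refine h1.trans ?_
      rw [← Finset.sum_neg_distrib, Finset.sum_mul]
      refine Finset.sum_le_sum fun e _ => ?_
      have hk := mul_nonneg (div_nonneg hd.lam (hd.g e).le) hw0
      split_ifs <;> linarith
    have hρw : ρ * (φ (D.erase y) - φ D) = -(ρ * w) := by rw [hw]; ring
    rw [hρw]
    by_cases hb : ∃ e, y ∈ d.ends e ∧ a e = true
    · rw [if_pos hb]
      obtain ⟨e0, he0, hae0⟩ := hb
      -- one term equals `w`, it replaces a term `- κ w`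
      have h2 : w - (1 - ρ) * w ≤
          ∑ e, (if y ∈ d.ends e then (if a e = true then w else -(d.lam / d.g e) * w) else 0) := by
        have h1 : -(1 - ρ) * w ≤ -(∑ e, (if y ∈ d.ends e then d.lam / d.g e else 0)) * w := by
          have := mul_le_mul_of_nonneg_right (hρ y) hw0
          linarith
        have h3 : w + -(∑ e, (if y ∈ d.ends e then d.lam / d.g e else 0)) * w =
            ∑ e, ((if e = e0 then w else 0) + -(if y ∈ d.ends e then d.lam / d.g e else 0) * w) := by
          rw [Finset.sum_add_distrib, ← Finset.sum_neg_distrib, Finset.sum_mul]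
          simp
        have h4 : w - (1 - ρ) * w ≤
            w + -(∑ e, (if y ∈ d.ends e then d.lam / d.g e else 0)) * w := by linarith
        refine h4.trans ?_
        rw [h3]
        refine Finset.sum_le_sum fun e _ => ?_
        have hk := mul_nonneg (div_nonneg hd.lam (hd.g e).le) hw0
        by_cases hee : e = e0
        · subst hee
          simp only [if_true, he0, hae0]
          linarith
        · rw [if_neg hee]
          split_ifs <;> linarith
      linarith
    · rw [if_neg hb]
      have : φ (D.erase y) - φ D = -w := by rw [hw]; ring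
      rw [this]
      linarith
  have hsum := Finset.sum_le_sum (s := Finset.univ) fun y _ => hpt y
  rw [Finset.sum_add_distrib] at hsum
  unfold Sys.step
  simp only
  rw [hblk, hst]
  have := mul_le_mul_of_nonneg_left hsum h0
  nlinarith

/-- linearity of the iterated steps -/
lemma Sys.steps_add {S I : Type*} [Fintype I] (X : Sys S I) (h : ℝ) (k : ℕ) (F G : S → ℝ) (s : S) :
    X.steps h k (fun s => F s + G s) s = X.steps h k F s + X.steps h k G s := by
  induction k generalizing s with
  | zero => rfl
  | succ k ih =>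
    have e1 : X.steps h k (fun s => F s + G s) = fun s => X.steps h k F s + X.steps h k G s :=
      funext ih
    rw [Sys.steps_succ, e1, Sys.steps_succ, Sys.steps_succ]
    unfold Sys.step Sys.gen Sys.avg
    have : ∀ i, X.r i * (X.p i * (X.steps h k F (X.f i true s) + X.steps h k G (X.f i true s)) +
        (1 - X.p i) * (X.steps h k F (X.f i false s) + X.steps h k G (X.f i false s)) -
        (X.steps h k F s + X.steps h k G s)) =
        X.r i * (X.p i * X.steps h k F (X.f i true s) + (1 - X.p i) * X.steps h k F (X.f i false s)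
          - X.steps h k F s) +
        X.r i * (X.p i * X.steps h k G (X.f i true s) + (1 - X.p i) * X.steps h k G (X.f i false s)
          - X.steps h k G s) := fun i => by ring
    rw [Finset.sum_congr rfl fun i _ => this i, Finset.sum_add_distrib]
    ring

lemma Sys.steps_smul {S I : Type*} [Fintype I] (X : Sys S I) (h : ℝ) (k : ℕ) (c : ℝ) (F : S → ℝ)
    (s : S) : X.steps h k (fun s => c * F s) s = c * X.steps h k F s := by
  induction k generalizing s with
  | zero => rfl
  | succ k ih =>
    have e1 : X.steps h k (fun s => c * F s) = fun s => c * X.steps h k F s := funext ih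
    rw [Sys.steps_succ, e1, Sys.steps_succ]
    unfold Sys.step Sys.gen Sys.avg
    have : ∀ i, X.r i * (X.p i * (c * X.steps h k F (X.f i true s)) +
        (1 - X.p i) * (c * X.steps h k F (X.f i false s)) - c * X.steps h k F s) =
        c * (X.r i * (X.p i * X.steps h k F (X.f i true s) +
          (1 - X.p i) * X.steps h k F (X.f i false s) - X.steps h k F s)) := fun i => by ring
    rw [Finset.sum_congr rfl fun i _ => this i, ← Finset.mul_sum]
    ring

lemma Sys.steps_sum {S I ι : Type*} [Fintype I] (X : Sys S I) (h : ℝ) (k : ℕ) (t : Finset ι)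
    (F : ι → S → ℝ) (s : S) :
    X.steps h k (fun s => ∑ j ∈ t, F j s) s = ∑ j ∈ t, X.steps h k (F j) s := by
  classical
  induction t using Finset.induction_on with
  | empty =>
    simp only [Finset.sum_empty]
    have := Sys.steps_smul X h k 0 (fun _ => 0) s
    simpa using this
  | insert j t hj ih =>
    simp only [Finset.sum_insert hj]
    rw [Sys.steps_add, ih]

/-- the blocked process against the static one -/
lemma blk_steps_le (hd : d.Ok) (hg : ∀ e, 2 ≤ d.g e) {h ρ : ℝ} (h0 : 0 ≤ h)
    (h1 : ∀ e, h * (d.blk.tot + (d.g e + d.lam)) ≤ 1) (hb : h * d.blk.tot ≤ 1) (hρ0 : 0 ≤ ρ)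
    (h2 : h * (d.st ρ).tot ≤ 1)
    (hρ : ∀ y, ∑ e, (if y ∈ d.ends e then d.lam / d.g e else 0) ≤ 1 - ρ)
    (C : Finset V) (k : ℕ) : ∀ {φ : Finset V → ℝ}, Monotone φ →
    d.blk.steps h k (fun s => φ s.1) (C, fun _ => false) ≤ (d.st ρ).steps h k φ C := by
  have hst : (d.st ρ).Valid := stat_valid (fun e => mul_nonneg hd.lam (hd.θ0 e)) hρ0
  have hstm : (d.st ρ).AvgMono := (stat_attractive _ _ _).avgMono hst
  induction k with
  | zero => intro φ _; exact le_rfl
  | succ k ih =>
    intro φ hφ
    rw [Sys.steps_succ']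
    refine (Sys.steps_mono hd.blk_valid h0 hb k (fun s => blk_step_le hd h0 hρ hφ s) _).trans ?_
    rw [Sys.steps_add, Sys.steps_smul, Sys.steps_sum]
    have hneg : ∑ y, d.blk.steps h k (fun s => ∑ e, (if y ∈ d.ends e then
        hatG d e (fun s => φ s.1 - φ (s.1.erase y)) s else 0)) (C, fun _ => false) ≤ 0 := by
      refine Finset.sum_nonpos fun y _ => ?_
      rw [Sys.steps_sum]
      refine Finset.sum_nonpos fun e _ => ?_
      by_cases hy : y ∈ d.ends e
      · simp only [if_pos hy]
        refine ratio hd h0 e (hg e) (h1 e) C k (fun s => φ s.1 - φ (s.1.erase y)) ?_ ?_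
        · intro D a b; rfl
        · intro s
          have : φ (s.1.erase y) ≤ φ s.1 := hφ (Finset.erase_subset _ _)
          linarith
      · simp only [if_neg hy]
        have := Sys.steps_smul d.blk h k 0 (fun _ => 0) (C, fun _ => false)
        simp only [zero_mul] at this
        exact le_of_eq this
    have h3 := ih (hstm.step hst h0 h2 hφ)
    rw [← Sys.steps_succ'] at h3
    have h4 := mul_nonpos_of_nonneg_of_nonpos h0 hneg
    linarith

/-- **Finite-volume comparison** for the uniformized chains. -/
theorem dyn_steps_le (hd : d.Ok) (hg : ∀ e, 2 ≤ d.g e) {h ρ : ℝ} (h0 : 0 ≤ h)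
    (h1 : ∀ e, h * (d.blk.tot + (d.g e + d.lam)) ≤ 1) (hb : h * d.blk.tot ≤ 1)
    (hl : h * d.lazy.tot ≤ 1) (hρ0 : 0 ≤ ρ) (h2 : h * (d.st ρ).tot ≤ 1)
    (hρ : ∀ y, ∑ e, (if y ∈ d.ends e then d.lam / d.g e else 0) ≤ 1 - ρ)
    (C : Finset V) (k : ℕ) {φ : Finset V → ℝ} (hφ : Monotone φ) :
    ex (w1 d.θ) (fun _ => none) (fun B => d.dyn.steps h k (fun s => φ s.1) (C, B)) ≤
      (d.st ρ).steps h k φ C := by
  have e1 : ex (w1 d.θ) (fun _ => none) (fun B => d.dyn.steps h k (fun s => φ s.1) (C, B)) =
      d.lazy.steps h k (revK d fun s => φ s.1) (C, fun _ => none) := by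
    rw [lazy_steps hd]; rfl
  rw [e1]
  have hF : Monotone fun s : Finset V × (E → Bool) => φ s.1 := fun s s' hs => hφ hs.1
  have e2 : ∀ s, revK d (fun s => φ s.1) s ≤ lookK d (fun s => φ s.1) s := by
    intro s
    unfold revK lookK
    simp only
    rw [ex_const (w1_ker hd.θ0 hd.θ1), ← ex_const (w2_ker hd.β0 hd.β1) s.2 (φ s.1)]
    exact ex_mono (w2_ker hd.β0 hd.β1) _ fun J => hφ Finset.subset_union_left
  refine (Sys.steps_mono hd.lazy_valid h0 hl k e2 _).trans ?_
  refine (look_steps hd h0 hl hb k hF _).trans ?_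
  rw [lookK_none hd]
  exact blk_steps_le hd hg h0 h1 hb hρ0 h2 hρ C k hφ

end Pool.Agent.Helper92.FastUpdate
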