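import Mathlib
import Pool.Agent.Helper92.FastUpdate.Chains

/-!
The ratio inequality for marked edges, and the comparison of the blocked process with a static
contact process of smaller recovery rate.
-/

open Finset

namespace Pool.Agent.Helper92.FastUpdate

variable {V E : Type*} [DecidableEq V] [DecidableEq E] [Fintype V] [Fintype E]

/-- states in which the endpoints of marked edges are infected -/
def Supp (d : Data V E) : Set (Finset V × (E → Bool)) :=
  {s | ∀ e, s.2 e = true → d.ends e ⊆ s.1}

omit [Fintype V] [Fintype E] in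
lemma supp_closed (d : Data V E) (i : E ⊕ E ⊕ V) (b : Bool) (s : Finset V × (E → Bool))
    (hs : s ∈ Supp d) : d.blk.f i b s ∈ Supp d := by
  classical
  obtain ⟨D, a⟩ := s
  have hs' : ∀ e, a e = true → d.ends e ⊆ D := hs
  rcases i with e | e | y
  · simp only [Data.blk]
    split_ifs with h
    · exact hs
    · intro f hf
      cases b
      · exact (hs' f hf).trans Finset.subset_union_left
      · simp only [cond_true] at hf
        by_cases hfe : f = e
        · subst hfe; exact Finset.subset_union_right
        · rw [Function.update_of_ne hfe] at hf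
          exact (hs' f hf).trans Finset.subset_union_left
  · intro f hf
    simp only [Data.blk] at hf ⊢
    by_cases hfe : f = e
    · subst hfe; simp at hf
    · rw [Function.update_of_ne hfe] at hf
      exact hs' f hf
  · simp only [Data.blk]
    split_ifs with h
    · exact hs
    · intro f hf z hz
      refine Finset.mem_erase.2 ⟨?_, hs' f hf hz⟩
      rintro rfl
      exact h ⟨f, hz, hf⟩

/-- the signed test function attached to an edge and a function `G` -/
noncomputable def hatG (d : Data V E) (e : E) (G : Finset V × (E → Bool) → ℝ)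
    (s : Finset V × (E → Bool)) : ℝ :=
  if s.2 e = true then G s else -(d.lam / d.g e) * G s

/-- `G` does not look at the mark of `e` -/
def Indep (e : E) (G : Finset V × (E → Bool) → ℝ) : Prop :=
  ∀ D a b, G (D, Function.update a e b) = G (D, a)

open Classical in
/-- rates with the clocks acting on `e` removed -/
noncomputable def rr (d : Data V E) (e : E) : E ⊕ E ⊕ V → ℝ :=
  Sum.elim (fun f => if f = e then 0 else d.lam * d.θ f)
    (Sum.elim (fun f => if f = e then 0 else d.g f) fun y => if y ∈ d.ends e then 0 else 1)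

/-- the new function -/
noncomputable def nextG (d : Data V E) (h : ℝ) (e : E) (G : Finset V × (E → Bool) → ℝ)
    (s : Finset V × (E → Bool)) : ℝ :=
  G s + h * ((∑ i, rr d e i * (d.blk.avg i G s - G s)) - (d.g e + d.lam) * G s)

variable {d : Data V E}

lemma rr_nonneg (hd : d.Ok) (e : E) (i : E ⊕ E ⊕ V) : 0 ≤ rr d e i := by
  classical
  rcases i with f | f | y
  · simp only [rr, Sum.elim_inl]; split_ifs
    · exact le_rfl
    · exact mul_nonneg hd.lam (hd.θ0 f)
  · simp only [rr, Sum.elim_inl, Sum.elim_inr]; split_ifs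
    · exact le_rfl
    · exact (hd.g f).le
  · simp only [rr, Sum.elim_inr]; split_ifs <;> norm_num

lemma rr_le (hd : d.Ok) (e : E) (i : E ⊕ E ⊕ V) : rr d e i ≤ d.blk.r i := by
  classical
  rcases i with f | f | y
  · simp only [rr, Sum.elim_inl, Data.blk]; split_ifs
    · exact mul_nonneg hd.lam (hd.θ0 f)
    · exact le_rfl
  · simp only [rr, Sum.elim_inl, Sum.elim_inr, Data.blk]; split_ifs
    · exact (hd.g f).le
    · exact le_rfl
  · simp only [rr, Sum.elim_inr, Data.blk]; split_ifs <;> norm_num

lemma nextG_nonneg (hd : d.Ok) {h : ℝ} (h0 : 0 ≤ h) (e : E)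
    (h1 : h * (d.blk.tot + (d.g e + d.lam)) ≤ 1) {G : Finset V × (E → Bool) → ℝ}
    (hG : ∀ s, 0 ≤ G s) (s : Finset V × (E → Bool)) : 0 ≤ nextG d h e G s := by
  have e1 : nextG d h e G s =
      (1 - h * ((∑ i, rr d e i) + (d.g e + d.lam))) * G s +
        h * ∑ i, rr d e i * d.blk.avg i G s := by
    unfold nextG
    have : ∑ i, rr d e i * (d.blk.avg i G s - G s) =
        ∑ i, rr d e i * d.blk.avg i G s - (∑ i, rr d e i) * G s := by
      rw [Finset.sum_mul, ← Finset.sum_sub_distrib]
      exact Finset.sum_congr rfl fun i _ => by ring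
    rw [this]; ring
  rw [e1]
  have h2 : (∑ i, rr d e i) ≤ d.blk.tot := Finset.sum_le_sum fun i _ => rr_le hd e i
  have h3 : h * ((∑ i, rr d e i) + (d.g e + d.lam)) ≤ 1 :=
    (mul_le_mul_of_nonneg_left (by linarith) h0).trans h1
  have h4 : ∀ i, 0 ≤ d.blk.avg i G s := by
    intro i
    have := Sys.avg_mono hd.blk_valid i (F := fun _ => 0) (G := G) hG s
    rwa [Sys.avg_const] at this
  have h5 : 0 ≤ ∑ i, rr d e i * d.blk.avg i G s :=
    Finset.sum_nonneg fun i _ => mul_nonneg (rr_nonneg hd e i) (h4 i)
  have h6 := mul_nonneg (show 0 ≤ 1 - h * ((∑ i, rr d e i) + (d.g e + d.lam)) by linarith) (hG s)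
  have h7 := mul_nonneg h0 h5
  linarith

lemma blocked_update {e : E} {y : V} (hy : y ∉ d.ends e) (a : E → Bool) (b : Bool) :
    (∃ f, y ∈ d.ends f ∧ Function.update a e b f = true) ↔ ∃ f, y ∈ d.ends f ∧ a f = true := by
  refine exists_congr fun f => and_congr_right fun hf => ?_
  have : f ≠ e := by rintro rfl; exact hy hf
  rw [Function.update_of_ne this]

/-- the system commutes with changing the mark of `e`, for clocks not acting on `e` -/
lemma blk_f_update (e : E) (i : E ⊕ E ⊕ V)
    (hi : i ≠ .inl e ∧ i ≠ .inr (.inl e) ∧ ∀ y ∈ d.ends e, i ≠ .inr (.inr y)) (m : Bool)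
    (D : Finset V) (a : E → Bool) (b : Bool) :
    d.blk.f i m (D, Function.update a e b) =
      ((d.blk.f i m (D, a)).1, Function.update (d.blk.f i m (D, a)).2 e b) := by
  classical
  obtain ⟨h1, h2, h3⟩ := hi
  rcases i with f | f | y
  · have hf : f ≠ e := fun h => h1 (by rw [h])
    simp only [Data.blk]
    split_ifs with h
    · rfl
    · cases m
      · rfl
      · simp only [cond_true]
        rw [Function.update_comm hf]
  · have hf : f ≠ e := fun h => h2 (by rw [h])
    simp only [Data.blk]
    rw [Function.update_comm hf]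
  · have hy : y ∉ d.ends e := fun h => h3 y h rfl
    have := blocked_update (d := d) hy a b
    simp only [Data.blk, this]
    split_ifs <;> rfl

lemma avg_indep (e : E) (i : E ⊕ E ⊕ V)
    (hi : i ≠ .inl e ∧ i ≠ .inr (.inl e) ∧ ∀ y ∈ d.ends e, i ≠ .inr (.inr y))
    {G : Finset V × (E → Bool) → ℝ} (hG : Indep e G) : Indep e (d.blk.avg i G) := by
  intro D a b
  unfold Sys.avg
  rw [blk_f_update e i hi, blk_f_update e i hi, hG, hG]

/-- average of the signed function for clocks not acting on `e` -/
lemma avg_hat (e : E) (i : E ⊕ E ⊕ V)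
    (hi : i ≠ .inl e ∧ i ≠ .inr (.inl e) ∧ ∀ y ∈ d.ends e, i ≠ .inr (.inr y))
    (G : Finset V × (E → Bool) → ℝ) (s : Finset V × (E → Bool)) :
    d.blk.avg i (hatG d e G) s =
      (if s.2 e = true then d.blk.avg i G s else -(d.lam / d.g e) * d.blk.avg i G s) := by
  have hk : ∀ m, (d.blk.f i m s).2 e = s.2 e := by
    intro m
    obtain ⟨D, a⟩ := s
    have := blk_f_update e i hi m D a (a e)
    rw [Function.update_eq_self] at this
    rw [this]; simp
  unfold Sys.avg hatG
  rw [hk, hk]
  split_ifs <;> ring

lemma cases_ix (e : E) (i : E ⊕ E ⊕ V) :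
    i = .inl e ∨ i = .inr (.inl e) ∨ (∃ y ∈ d.ends e, i = .inr (.inr y)) ∨
    (i ≠ .inl e ∧ i ≠ .inr (.inl e) ∧ ∀ y ∈ d.ends e, i ≠ .inr (.inr y)) := by
  by_cases h1 : i = .inl e
  · exact Or.inl h1
  by_cases h2 : i = .inr (.inl e)
  · exact Or.inr (Or.inl h2)
  by_cases h3 : ∃ y ∈ d.ends e, i = .inr (.inr y)
  · exact Or.inr (Or.inr (Or.inl h3))
  · push Not at h3
    exact Or.inr (Or.inr (Or.inr ⟨h1, h2, h3⟩))

lemma rr_other (e : E) (i : E ⊕ E ⊕ V)
    (hi : i ≠ .inl e ∧ i ≠ .inr (.inl e) ∧ ∀ y ∈ d.ends e, i ≠ .inr (.inr y)) :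
    rr d e i = d.blk.r i := by
  classical
  obtain ⟨h1, h2, h3⟩ := hi
  rcases i with f | f | y
  · have hf : f ≠ e := fun h => h1 (by rw [h])
    simp [rr, Data.blk, hf]
  · have hf : f ≠ e := fun h => h2 (by rw [h])
    simp [rr, Data.blk, hf]
  · have hy : y ∉ d.ends e := fun h => h3 y h rfl
    simp [rr, Data.blk, hy]

lemma nextG_indep {h : ℝ} {e : E} {G : Finset V × (E → Bool) → ℝ} (hG : Indep e G) :
    Indep e (nextG d h e G) := by
  classical
  intro D a b
  unfold nextG
  rw [hG]
  congr 2
  congr 1
  refine Finset.sum_congr rfl fun i _ => ?_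
  rcases cases_ix (d := d) e i with hi | hi | ⟨y, hy, hi⟩ | hi
  · have : rr d e i = 0 := by rw [hi]; simp [rr]
    rw [this]; ring
  · have : rr d e i = 0 := by rw [hi]; simp [rr]
    rw [this]; ring
  · have : rr d e i = 0 := by rw [hi]; simp [rr, hy]
    rw [this]; ring
  · rw [avg_indep e i hi hG]

/-- the drift at a state where `e` is marked -/
lemma hat_step_true (hd : d.Ok) (h : ℝ) (e : E) (G : Finset V × (E → Bool) → ℝ)
    (hG : Indep e G) (D : Finset V) (a : E → Bool) (hs : (D, a) ∈ Supp d) (ha : a e = true) :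
    d.blk.step h (hatG d e G) (D, a) = hatG d e (nextG d h e G) (D, a) := by
  classical
  have hgpos := hd.g e
  have hH : ∀ D', hatG d e G (D', a) = G (D', a) := fun D' => by
    simp only [hatG, ha, if_true]
  have hR : hatG d e (nextG d h e G) (D, a) = nextG d h e G (D, a) := by
    simp only [hatG, ha, if_true]
  rw [hR]
  unfold Sys.step nextG Sys.gen
  rw [hH]
  congr 2
  have hterm : ∀ i, d.blk.r i * (d.blk.avg i (hatG d e G) (D, a) - G (D, a)) =
      rr d e i * (d.blk.avg i G (D, a) - G (D, a)) +
        (if i = .inr (.inl e) then -((d.g e + d.lam) * G (D, a)) else 0) := by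
    intro i
    rcases cases_ix (d := d) e i with hi | hi | ⟨y, hy, hi⟩ | hi
    · subst hi
      have h1 : rr d e (.inl e) = 0 := by simp [rr]
      have h2 : d.blk.avg (.inl e) (hatG d e G) (D, a) = G (D, a) := by
        have hD' : D ∪ d.ends e = D := Finset.union_eq_left.2 (hs e ha)
        have hJ' : Function.update a e true = a := by rw [← ha, Function.update_eq_self]
        simp only [Sys.avg, Data.blk, hD', hJ']
        by_cases hdis : Disjoint (d.ends e) D
        · simp only [if_pos hdis, hH]; ring
        · simp only [if_neg hdis, cond_true, cond_false, hH]; ring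
      rw [h1, h2]; simp
    · subst hi
      have h1 : rr d e (.inr (.inl e)) = 0 := by simp [rr]
      have h2 : d.blk.avg (.inr (.inl e)) (hatG d e G) (D, a) = -(d.lam / d.g e) * G (D, a) := by
        simp only [Sys.avg, Data.blk]
        have : hatG d e G (D, Function.update a e false) = -(d.lam / d.g e) * G (D, a) := by
          simp only [hatG, Function.update_self]
          rw [hG]; simp
        rw [this]; ring
      have h3 : d.blk.r (.inr (.inl e)) = d.g e := by simp [Data.blk]
      rw [h1, h2, h3]
      simp only [if_true]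
      field_simp
      ring
    · subst hi
      have h1 : rr d e (.inr (.inr y)) = 0 := by simp [rr, hy]
      have h2 : d.blk.avg (.inr (.inr y)) (hatG d e G) (D, a) = G (D, a) := by
        have hb : ∃ f, y ∈ d.ends f ∧ a f = true := ⟨e, hy, ha⟩
        simp only [Sys.avg, Data.blk, if_pos hb, hH]; ring
      rw [h1, h2]; simp
    · rw [rr_other e i hi, avg_hat e i hi]
      simp only [ha, if_true]
      rw [if_neg hi.2.1, add_zero]
  rw [Finset.sum_congr rfl fun i _ => hterm i, Finset.sum_add_distrib]
  simp only [Finset.sum_ite_eq', Finset.mem_univ, if_true]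
  ring

/-- the drift at a state where `e` is not marked -/
lemma hat_step_false (hd : d.Ok) {h : ℝ} (h0 : 0 ≤ h) (e : E) (hg : 2 ≤ d.g e)
    {G : Finset V × (E → Bool) → ℝ} (hG : Indep e G) (hG0 : ∀ s, 0 ≤ G s) (D : Finset V)
    (a : E → Bool) (ha : a e = false) :
    d.blk.step h (hatG d e G) (D, a) ≤ hatG d e (nextG d h e G) (D, a) := by
  classical
  have hgpos := hd.g e
  set κ := d.lam / d.g e with hκ
  have hκ0 : 0 ≤ κ := div_nonneg hd.lam hgpos.le
  have hH : ∀ D', hatG d e G (D', a) = -κ * G (D', a) := fun D' => by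
    simp [hatG, ha, hκ]
  have hR : hatG d e (nextG d h e G) (D, a) = -κ * nextG d h e G (D, a) := by
    simp [hatG, ha, hκ]
  rw [hR]
  have hterm : ∀ i, d.blk.r i * (d.blk.avg i (hatG d e G) (D, a) - hatG d e G (D, a)) ≤
      -κ * (rr d e i * (d.blk.avg i G (D, a) - G (D, a))) +
        Sum.elim (fun f => if f = e then d.lam * κ * G (D, a) else 0)
          (Sum.elim (fun _ => 0) fun y => if y ∈ d.ends e then κ * G (D, a) else 0) i := by
    intro i
    rw [hH]
    have hG1 := hG0 (D, a)
    rcases cases_ix (d := d) e i with hi | hi | ⟨y, hy, hi⟩ | hi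
    · subst hi
      have h1 : rr d e (.inl e) = 0 := by simp [rr]
      have h3 : d.blk.r (.inl e) = d.lam * d.θ e := by simp [Data.blk]
      have h2 : d.blk.avg (.inl e) (hatG d e G) (D, a) ≤ 0 := by
        by_cases hdis : Disjoint (d.ends e) D
        · simp only [Sys.avg, Data.blk, if_pos hdis, hH]
          nlinarith [mul_nonneg hκ0 hG1]
        · simp only [Sys.avg, Data.blk, if_neg hdis, cond_true, cond_false, hH, Sum.elim_inl]
          have h4 : hatG d e G (D ∪ d.ends e, Function.update a e true) = G (D ∪ d.ends e, a) := by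
            simp only [hatG, Function.update_self, if_true]
            rw [hG]
          rw [h4]
          have h5 : d.β e - (1 - d.β e) * κ = 0 := by
            rw [hκ, Data.β]
            have : d.lam + d.g e ≠ 0 := by linarith [hd.lam]
            field_simp
            ring
          have h6 : d.β e * G (D ∪ d.ends e, a) + (1 - d.β e) * (-κ * G (D ∪ d.ends e, a)) =
              (d.β e - (1 - d.β e) * κ) * G (D ∪ d.ends e, a) := by ring
          rw [h6, h5, zero_mul]
      rw [h1, h3]
      simp only [Sum.elim_inl, if_true]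
      have h7 : 0 ≤ d.lam * d.θ e := mul_nonneg hd.lam (hd.θ0 e)
      have h8 : d.lam * d.θ e ≤ d.lam := mul_le_of_le_one_right hd.lam (hd.θ1 e)
      have h9 : d.lam * d.θ e * (d.blk.avg (.inl e) (hatG d e G) (D, a) - -κ * G (D, a)) ≤
          d.lam * d.θ e * (κ * G (D, a)) := mul_le_mul_of_nonneg_left (by linarith) h7
      have h10 : d.lam * d.θ e * (κ * G (D, a)) ≤ d.lam * (κ * G (D, a)) :=
        mul_le_mul_of_nonneg_right h8 (mul_nonneg hκ0 hG1)
      linarith
    · subst hi
      have h1 : rr d e (.inr (.inl e)) = 0 := by simp [rr]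
      have h2 : d.blk.avg (.inr (.inl e)) (hatG d e G) (D, a) = -κ * G (D, a) := by
        have : Function.update a e false = a := by rw [← ha, Function.update_eq_self]
        simp only [Sys.avg, Data.blk, this, hH]; ring
      rw [h1, h2]; simp
    · subst hi
      have h1 : rr d e (.inr (.inr y)) = 0 := by simp [rr, hy]
      have h3 : d.blk.r (.inr (.inr y)) = 1 := by simp [Data.blk]
      have h2 : d.blk.avg (.inr (.inr y)) (hatG d e G) (D, a) ≤ 0 := by
        simp only [Sys.avg, Data.blk]
        split_ifs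
        · rw [hH]; nlinarith [mul_nonneg hκ0 hG1]
        · rw [hH]; nlinarith [mul_nonneg hκ0 (hG0 (D.erase y, a))]
      rw [h1, h3]
      simp only [Sum.elim_inr, if_pos hy]
      linarith
    · rw [rr_other e i hi, avg_hat e i hi]
      have h4 : Sum.elim (fun f => if f = e then d.lam * κ * G (D, a) else 0)
          (Sum.elim (fun _ => 0) fun y => if y ∈ d.ends e then κ * G (D, a) else 0) i = 0 := by
        rcases i with f | f | y
        · have hf : f ≠ e := fun h => hi.1 (by rw [h])
          simp [hf]
        · simp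
        · have hy : y ∉ d.ends e := fun h => hi.2.2 y h rfl
          simp [hy]
      rw [h4]
      simp only [ha]
      apply le_of_eq
      rw [← hκ]
      simp only [Bool.false_eq_true, if_false]
      ring
  have hsum := Finset.sum_le_sum (s := Finset.univ) fun i _ => hterm i
  rw [Finset.sum_add_distrib, ← Finset.mul_sum] at hsum
  have hextra : ∑ i : E ⊕ E ⊕ V, Sum.elim (fun f => if f = e then d.lam * κ * G (D, a) else 0)
          (Sum.elim (fun _ => 0) fun y => if y ∈ d.ends e then κ * G (D, a) else 0) i =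
      d.lam * κ * G (D, a) + (d.ends e).card * (κ * G (D, a)) := by
    rw [Fintype.sum_sum_type, Fintype.sum_sum_type]
    simp
  rw [hextra] at hsum
  have hcard : ((d.ends e).card : ℝ) ≤ 2 := by exact_mod_cast hd.card e
  have hG1 := hG0 (D, a)
  have hκG := mul_nonneg hκ0 hG1
  have h11 : ((d.ends e).card : ℝ) * (κ * G (D, a)) ≤ d.g e * (κ * G (D, a)) :=
    mul_le_mul_of_nonneg_right (hcard.trans hg) hκG
  unfold Sys.step nextG Sys.gen
  rw [hH]
  have h12 : (∑ i, d.blk.r i * (d.blk.avg i (hatG d e G) (D, a) - hatG d e G (D, a))) ≤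
      -κ * ((∑ i, rr d e i * (d.blk.avg i G (D, a) - G (D, a))) -
        (d.g e + d.lam) * G (D, a)) := by
    refine hsum.trans ?_
    have : d.lam * κ * G (D, a) + d.g e * (κ * G (D, a)) =
      κ * ((d.g e + d.lam) * G (D, a)) := by ring
    nlinarith
  rw [hH] at h12
  have h13 := mul_le_mul_of_nonneg_left h12 h0
  linarith

/-- the ratio inequality -/
lemma ratio (hd : d.Ok) {h : ℝ} (h0 : 0 ≤ h) (e : E) (hg : 2 ≤ d.g e)
    (h1 : h * (d.blk.tot + (d.g e + d.lam)) ≤ 1) (C : Finset V) (k : ℕ) :
    ∀ G : Finset V × (E → Bool) → ℝ, Indep e G → (∀ s, 0 ≤ G s) →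
      d.blk.steps h k (hatG d e G) (C, fun _ => false) ≤ 0 := by
  have htot : h * d.blk.tot ≤ 1 := by
    refine (mul_le_mul_of_nonneg_left ?_ h0).trans h1
    linarith [hd.lam, hd.g e]
  induction k with
  | zero =>
    intro G _ hG0
    change hatG d e G (C, fun _ => false) ≤ 0
    simp only [hatG, Bool.false_eq_true, if_false]
    have := mul_nonneg (div_nonneg hd.lam (hd.g e).le) (hG0 (C, fun _ => false))
    linarith
  | succ k ih =>
    intro G hG hG0
    rw [Sys.steps_succ']
    have hmem : ((C, fun _ => false) : Finset V × (E → Bool)) ∈ Supp d := by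
      intro f hf; simp at hf
    refine (Sys.steps_mono_on hd.blk_valid h0 htot (A := Supp d) (supp_closed d) k
      (G := hatG d e (nextG d h e G)) ?_ hmem).trans
      (ih _ (nextG_indep hG) (nextG_nonneg hd h0 e h1 hG0))
    rintro ⟨D, a⟩ hs
    rcases ha : a e with _ | _
    · exact hat_step_false hd h0 e hg hG hG0 D a ha
    · exact le_of_eq (hat_step_true hd h e G hG D a hs ha)

end Pool.Agent.Helper92.FastUpdate
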