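import Mathlib

/-!
Finite systems of clocks: a clock `i` rings at rate `r i`; when it rings with mark `b` the state
`s` jumps to `f i b s`, and the mark is `true` with probability `p i`.
-/

open Finset

namespace Pool.Agent.Helper92.FastUpdate

/-- A finite system of clocks acting on the state space `S`. -/
structure Sys (S I : Type*) where
  /-- rates of the clocks -/
  r : I → ℝ
  /-- probability of the mark `true` -/
  p : I → ℝ
  /-- the jump of the state at a ring, given the mark -/
  f : I → Bool → S → S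

namespace Sys

variable {S I : Type*} [Fintype I] (X : Sys S I)

/-- average of `F` after one ring of the clock `i` -/
def avg (i : I) (F : S → ℝ) (s : S) : ℝ := X.p i * F (X.f i true s) + (1 - X.p i) * F (X.f i false s)

/-- the generator -/
def gen (F : S → ℝ) (s : S) : ℝ := ∑ i, X.r i * (X.avg i F s - F s)

/-- one step of the uniformized chain -/
def step (h : ℝ) (F : S → ℝ) (s : S) : ℝ := F s + h * X.gen F s

/-- rates are nonnegative and probabilities are probabilities -/
structure Valid : Prop where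
  r_nonneg : ∀ i, 0 ≤ X.r i
  p_nonneg : ∀ i, 0 ≤ X.p i
  p_le : ∀ i, X.p i ≤ 1

/-- total rate -/
def tot : ℝ := ∑ i, X.r i

variable {X}

lemma avg_mono (hX : X.Valid) (i : I) {F G : S → ℝ} (h : ∀ s, F s ≤ G s) (s : S) :
    X.avg i F s ≤ X.avg i G s := by
  unfold avg
  have h1 := hX.p_nonneg i
  have h2 := hX.p_le i
  have h3 := h (X.f i true s)
  have h4 := h (X.f i false s)
  have h5 : X.p i * F (X.f i true s) ≤ X.p i * G (X.f i true s) :=
    mul_le_mul_of_nonneg_left h3 h1
  have h6 : (1 - X.p i) * F (X.f i false s) ≤ (1 - X.p i) * G (X.f i false s) :=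
    mul_le_mul_of_nonneg_left h4 (by linarith)
  linarith

lemma avg_const (i : I) (c : ℝ) (s : S) : X.avg i (fun _ => c) s = c := by
  unfold avg; ring

lemma avg_congr {i : I} {F G : S → ℝ} {s : S} (h1 : F (X.f i true s) = G (X.f i true s))
    (h2 : F (X.f i false s) = G (X.f i false s)) : X.avg i F s = X.avg i G s := by
  unfold avg; rw [h1, h2]

lemma tot_nonneg (hX : X.Valid) : 0 ≤ X.tot := Finset.sum_nonneg fun i _ => hX.r_nonneg i

lemma step_eq (h : ℝ) (F : S → ℝ) (s : S) :
    X.step h F s = (1 - h * X.tot) * F s + h * ∑ i, X.r i * X.avg i F s := by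
  unfold step gen tot
  have : ∑ i, X.r i * (X.avg i F s - F s) = ∑ i, X.r i * X.avg i F s - (∑ i, X.r i) * F s := by
    rw [Finset.sum_mul, ← Finset.sum_sub_distrib]
    exact Finset.sum_congr rfl fun i _ => by ring
  rw [this]; ring

lemma step_mono (hX : X.Valid) {h : ℝ} (h0 : 0 ≤ h) (h1 : h * X.tot ≤ 1) {F G : S → ℝ}
    (hFG : ∀ s, F s ≤ G s) (s : S) : X.step h F s ≤ X.step h G s := by
  rw [step_eq, step_eq]
  have h2 : (1 - h * X.tot) * F s ≤ (1 - h * X.tot) * G s :=
    mul_le_mul_of_nonneg_left (hFG s) (by linarith)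
  have h3 : ∑ i, X.r i * X.avg i F s ≤ ∑ i, X.r i * X.avg i G s :=
    Finset.sum_le_sum fun i _ => mul_le_mul_of_nonneg_left (avg_mono hX i hFG s) (hX.r_nonneg i)
  have h4 : h * ∑ i, X.r i * X.avg i F s ≤ h * ∑ i, X.r i * X.avg i G s :=
    mul_le_mul_of_nonneg_left h3 h0
  linarith

lemma step_const (h c : ℝ) (s : S) : X.step h (fun _ => c) s = c := by
  unfold step gen
  simp [avg_const]

/-- iterates of the step -/
def steps (X : Sys S I) (h : ℝ) : ℕ → (S → ℝ) → (S → ℝ)
  | 0, F => F
  | k + 1, F => X.step h (steps X h k F)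

lemma steps_succ (h : ℝ) (k : ℕ) (F : S → ℝ) :
    X.steps h (k + 1) F = X.step h (X.steps h k F) := rfl

lemma steps_succ' (h : ℝ) (k : ℕ) (F : S → ℝ) :
    X.steps h (k + 1) F = X.steps h k (X.step h F) := by
  induction k generalizing F with
  | zero => rfl
  | succ k ih => rw [steps_succ, ih, steps_succ]

lemma steps_mono (hX : X.Valid) {h : ℝ} (h0 : 0 ≤ h) (h1 : h * X.tot ≤ 1) (k : ℕ) {F G : S → ℝ}
    (hFG : ∀ s, F s ≤ G s) (s : S) : X.steps h k F s ≤ X.steps h k G s := by
  induction k generalizing s with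
  | zero => exact hFG s
  | succ k ih => exact step_mono hX h0 h1 ih s

/-- If a set of states is closed under the jumps, comparison on the set is enough. -/
lemma step_mono_on (hX : X.Valid) {h : ℝ} (h0 : 0 ≤ h) (h1 : h * X.tot ≤ 1) {A : Set S}
    (hA : ∀ i b s, s ∈ A → X.f i b s ∈ A) {F G : S → ℝ} (hFG : ∀ s ∈ A, F s ≤ G s) {s : S}
    (hs : s ∈ A) : X.step h F s ≤ X.step h G s := by
  rw [step_eq, step_eq]
  have h2 : (1 - h * X.tot) * F s ≤ (1 - h * X.tot) * G s :=
    mul_le_mul_of_nonneg_left (hFG s hs) (by linarith)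
  have h3 : ∑ i, X.r i * X.avg i F s ≤ ∑ i, X.r i * X.avg i G s := by
    refine Finset.sum_le_sum fun i _ => mul_le_mul_of_nonneg_left ?_ (hX.r_nonneg i)
    unfold avg
    have h3 := hFG _ (hA i true s hs)
    have h4 := hFG _ (hA i false s hs)
    have h5 : X.p i * F (X.f i true s) ≤ X.p i * G (X.f i true s) :=
      mul_le_mul_of_nonneg_left h3 (hX.p_nonneg i)
    have h6 : (1 - X.p i) * F (X.f i false s) ≤ (1 - X.p i) * G (X.f i false s) :=
      mul_le_mul_of_nonneg_left h4 (by linarith [hX.p_le i])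
    linarith
  have h4 : h * ∑ i, X.r i * X.avg i F s ≤ h * ∑ i, X.r i * X.avg i G s :=
    mul_le_mul_of_nonneg_left h3 h0
  linarith

lemma steps_mono_on (hX : X.Valid) {h : ℝ} (h0 : 0 ≤ h) (h1 : h * X.tot ≤ 1) {A : Set S}
    (hA : ∀ i b s, s ∈ A → X.f i b s ∈ A) (k : ℕ) {F G : S → ℝ} (hFG : ∀ s ∈ A, F s ≤ G s) {s : S}
    (hs : s ∈ A) : X.steps h k F s ≤ X.steps h k G s := by
  induction k generalizing s with
  | zero => exact hFG s hs
  | succ k ih => exact step_mono_on hX h0 h1 hA (fun s hs => ih hs) hs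

/-- the jumps preserve the order -/
def Attractive [Preorder S] (X : Sys S I) : Prop := ∀ i b, Monotone (X.f i b)

/-- averages preserve monotone functions -/
def AvgMono [Preorder S] (X : Sys S I) : Prop := ∀ i (F : S → ℝ), Monotone F → Monotone (X.avg i F)

lemma Attractive.avgMono [Preorder S] (hX : X.Valid) (ha : X.Attractive) : X.AvgMono := by
  intro i F hF s s' hs
  unfold avg
  have h1 := hF (ha i true hs)
  have h2 := hF (ha i false hs)
  have h5 := mul_le_mul_of_nonneg_left h1 (hX.p_nonneg i)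
  have h6 := mul_le_mul_of_nonneg_left h2 (show 0 ≤ 1 - X.p i by linarith [hX.p_le i])
  linarith

lemma AvgMono.step [Preorder S] (hX : X.Valid) (ha : X.AvgMono) {h : ℝ} (h0 : 0 ≤ h)
    (h1 : h * X.tot ≤ 1) {F : S → ℝ} (hF : Monotone F) : Monotone (X.step h F) := by
  intro s s' hs
  rw [step_eq, step_eq]
  have h2 : (1 - h * X.tot) * F s ≤ (1 - h * X.tot) * F s' :=
    mul_le_mul_of_nonneg_left (hF hs) (by linarith)
  have h3 : ∑ i, X.r i * X.avg i F s ≤ ∑ i, X.r i * X.avg i F s' :=
    Finset.sum_le_sum fun i _ => mul_le_mul_of_nonneg_left (ha i F hF hs) (hX.r_nonneg i)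
  have h4 : h * ∑ i, X.r i * X.avg i F s ≤ h * ∑ i, X.r i * X.avg i F s' :=
    mul_le_mul_of_nonneg_left h3 h0
  linarith

lemma AvgMono.steps [Preorder S] (hX : X.Valid) (ha : X.AvgMono) {h : ℝ} (h0 : 0 ≤ h)
    (h1 : h * X.tot ≤ 1) (k : ℕ) {F : S → ℝ} (hF : Monotone F) : Monotone (X.steps h k F) := by
  induction k with
  | zero => exact hF
  | succ k ih => exact ha.step hX h0 h1 ih

end Sys

end Pool.Agent.Helper92.FastUpdate
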